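import Pool.Agent.H94.MuSym.Defs

/-!
# Invariant pairings of class groups with Galois modules: definitions
-/

namespace Pool.H94.MuSym

open NumberField

/-- The action of an automorphism `σ` of the number field `M` on the ideal class group of `M`. -/
noncomputable def classAct {M : Type} [Field M] [NumberField M] (σ : M ≃+* M)
    (c : ClassGroup (𝓞 M)) : ClassGroup (𝓞 M) :=
  ClassGroup.mulEquiv (RingOfIntegers.mapRingEquiv σ) c

/-- `b` is a pairing `Cl(M) × V → F` which is additive in the ideal class and `F`-linear in the
vector, and invariant under the group `G`, which acts on `M` by `φ` and on `V` by `τ`. -/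
def IsPairing {F : Type} [Field F] {G : Type} [Group G] {M : Type} [Field M] [NumberField M]
    (φ : G →* (M ≃+* M)) {V : Type} [AddCommGroup V] [Module F V] (τ : Representation F G V)
    (b : ClassGroup (𝓞 M) → (V →ₗ[F] F)) : Prop :=
  (∀ c c', b (c * c') = b c + b c') ∧ ∀ g c v, b (classAct (φ g) c) (τ g v) = b c v

/-- The space of the invariant pairings `Cl(M) × V → F`. -/
def pairings {F : Type} [Field F] {G : Type} [Group G] {M : Type} [Field M] [NumberField M]
    (φ : G →* (M ≃+* M)) {V : Type} [AddCommGroup V] [Module F V] (τ : Representation F G V) :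
    Submodule F (ClassGroup (𝓞 M) → (V →ₗ[F] F)) where
  carrier := {b | IsPairing φ τ b}
  zero_mem' := by
    refine ⟨fun c c' => ?_, fun g c v => rfl⟩
    simp
  add_mem' := by
    rintro a b ⟨ha1, ha2⟩ ⟨hb1, hb2⟩
    refine ⟨fun c c' => ?_, fun g c v => ?_⟩
    · simp only [Pi.add_apply, ha1, hb1]
      abel
    · simp only [Pi.add_apply, LinearMap.add_apply, ha2, hb2]
  smul_mem' := by
    rintro x b ⟨hb1, hb2⟩
    refine ⟨fun c c' => ?_, fun g c v => ?_⟩
    · simp only [Pi.smul_apply, hb1, smul_add]
    · simp only [Pi.smul_apply, LinearMap.smul_apply, hb2]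

/-- The dimension of the space of invariant pairings `Cl(M) × V → F`. -/
noncomputable def pairNum {F : Type} [Field F] {G : Type} [Group G] {M : Type} [Field M]
    [NumberField M] (φ : G →* (M ≃+* M)) {V : Type} [AddCommGroup V] [Module F V]
    (τ : Representation F G V) : ℕ :=
  Module.finrank F (pairings φ τ)

/-- The homomorphisms from the ideal class group of `M` to the additive group of `F`. -/
def classHom (F : Type) [Field F] (M : Type) [Field M] [NumberField M] :
    Submodule F (ClassGroup (𝓞 M) → F) where
  carrier := {f | ∀ c c', f (c * c') = f c + f c'}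
  zero_mem' := fun c c' => by simp
  add_mem' := by
    intro a b ha hb c c'
    simp only [Pi.add_apply, ha c c', hb c c']
    ring
  smul_mem' := by
    intro x b hb c c'
    simp only [Pi.smul_apply, hb c c', smul_add]

/-- The dimension over `F` of `Hom(Cl(M), F)`: this is the `p`-rank of the class group of `M`,
where `p` is the characteristic of `F`. -/
noncomputable def classRank (F : Type) [Field F] (M : Type) [Field M] [NumberField M] : ℕ :=
  Module.finrank F (classHom F M)

/-- `f = o(a)`: for all `ε > 0` one has `f n ≤ ε a n` for all large `n`. -/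
def IsSmall (f : ℕ → ℕ) (a : ℕ → ℝ) : Prop :=
  ∀ ε : ℝ, 0 < ε → ∀ᶠ n in Filter.atTop, (f n : ℝ) ≤ ε * a n

end Pool.H94.MuSym
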