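import Pool.Agent.H94.MuSym.Proof
import Pool.Agent.H94.MuSym.ClassDefs

/-!
# Invariant pairings of class groups with Galois modules: proofs
-/

namespace Pool.H94.MuSym

open NumberField MvPolynomial FractionalIdeal
open scoped nonZeroDivisors

section Functor

variable {R S T : Type} [CommRing R] [IsDomain R] [CommRing S] [IsDomain S] [CommRing T]
  [IsDomain T]

theorem mulEquiv_mk (f : R ≃+* S) (I : (FractionalIdeal R⁰ (FractionRing R))ˣ) :
    ClassGroup.mulEquiv f (ClassGroup.mk (FractionRing R) I) =
      ClassGroup.mk (FractionRing S)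
        (Units.mapEquiv
          (ringEquivOfRingEquiv (FractionRing R) (FractionRing S) f).toMulEquiv I) := by
  rw [ClassGroup.mulEquiv]
  simp only [MulEquiv.trans_apply, ClassGroup.equiv_mk]
  rw [MulEquiv.symm_apply_eq, ClassGroup.equiv_mk]
  rw [QuotientGroup.congr_mk']
  congr 1
  ext
  simp

theorem mulEquiv_trans (f : R ≃+* S) (g : S ≃+* T) (c : ClassGroup R) :
    ClassGroup.mulEquiv (f.trans g) c = ClassGroup.mulEquiv g (ClassGroup.mulEquiv f c) := by
  refine ClassGroup.induction (FractionRing R) (fun I => ?_) c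
  rw [mulEquiv_mk, mulEquiv_mk, mulEquiv_mk]
  congr 1
  apply Units.ext
  exact ringEquivOfRingEquiv_trans_apply (FractionRing R) (FractionRing S) (FractionRing T)
    f g I.val

theorem mulEquiv_refl (c : ClassGroup R) :
    ClassGroup.mulEquiv (RingEquiv.refl R) c = c := by
  refine ClassGroup.induction (FractionRing R) (fun I => ?_) c
  rw [mulEquiv_mk]
  congr 1
  apply Units.ext
  change ringEquivOfRingEquiv (FractionRing R) (FractionRing R) (RingEquiv.refl R) I.val = I.val
  rw [ringEquivOfRingEquiv_refl]
  rfl

end Functor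

section Act

variable {M : Type} [Field M] [NumberField M]

theorem classAct_one (c : ClassGroup (𝓞 M)) : classAct (1 : M ≃+* M) c = c := by
  rw [classAct]
  have : RingOfIntegers.mapRingEquiv (1 : M ≃+* M) = RingEquiv.refl (𝓞 M) := by
    ext x
    rfl
  rw [this, mulEquiv_refl]

theorem classAct_mul (σ σ' : M ≃+* M) (c : ClassGroup (𝓞 M)) :
    classAct (σ * σ') c = classAct σ (classAct σ' c) := by
  rw [classAct, classAct, classAct, ← mulEquiv_trans]
  congr 1

theorem classAct_add (σ : M ≃+* M) (c c' : ClassGroup (𝓞 M)) :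
    classAct σ (c * c') = classAct σ c * classAct σ c' :=
  map_mul (ClassGroup.mulEquiv (RingOfIntegers.mapRingEquiv σ)) c c'

end Act

section Pair

variable {F : Type} [Field F] {G : Type} [Group G] {M : Type} [Field M] [NumberField M]
  (φ : G →* (M ≃+* M))

theorem mem_pairings {V : Type} [AddCommGroup V] [Module F V] (τ : Representation F G V)
    (b : ClassGroup (𝓞 M) → (V →ₗ[F] F)) :
    b ∈ pairings φ τ ↔ (∀ c c', b (c * c') = b c + b c') ∧
      ∀ g c v, b (classAct (φ g) c) (τ g v) = b c v := Iff.rfl

theorem finite_pairings {V : Type} [AddCommGroup V] [Module F V] [Module.Finite F V]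
    (τ : Representation F G V) : Module.Finite F (pairings φ τ) := by
  infer_instance

/-- the number of invariant pairings is a mu-number -/
noncomputable def pairMu (F : Type) [Field F] {G : Type} [Group G] [TopologicalSpace G]
    {M : Type} [Field M] [NumberField M] (φ : G →* (M ≃+* M)) : MuNumber F G where
  h := fun V _ _ τ => Module.finrank F (pairings φ τ)
  quot := by
    intro V W _ _ _ _ τ σ f hτ hf heq
    have := hτ.1
    let e : pairings φ σ →ₗ[F] pairings φ τ :=
      { toFun := fun b => ⟨fun c => (b.1 c).comp f, by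
          refine ⟨fun c c' => ?_, fun g c v => ?_⟩
          · dsimp only
            rw [b.2.1 c c', LinearMap.add_comp]
          · rw [LinearMap.comp_apply, LinearMap.comp_apply, heq, b.2.2 g c (f v)]⟩
        map_add' := by
          intro b b'
          apply Subtype.ext
          funext c
          exact LinearMap.add_comp _ _ _
        map_smul' := by
          intro x b
          apply Subtype.ext
          funext c
          exact LinearMap.smul_comp _ _ _ }
    refine LinearMap.finrank_le_finrank_of_injective (f := e) ?_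
    intro b b' hbb
    apply Subtype.ext
    funext c
    refine LinearMap.ext fun w => ?_
    obtain ⟨v, rfl⟩ := hf w
    have h1 := congrFun (congrArg Subtype.val hbb) c
    exact LinearMap.congr_fun h1 v
  sum := by
    classical
    intro ι _ V _ _ σ τ hσ hτ
    have hfin : ∀ i, Module.Finite F (V i) := fun i => (hσ i).1
    let e : pairings φ τ ≃ₗ[F] (∀ i, pairings φ (σ i)) :=
      { toFun := fun b i => ⟨fun c => (b.1 c).comp (LinearMap.single F V i), by
          refine ⟨fun c c' => ?_, fun g c v => ?_⟩
          · dsimp only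
            rw [b.2.1 c c', LinearMap.add_comp]
          · rw [LinearMap.comp_apply, LinearMap.comp_apply]
            rw [← b.2.2 g c (LinearMap.single F V i v)]
            congr 1
            funext j
            rw [hτ]
            by_cases hj : j = i
            · subst hj
              simp
            · simp [hj]⟩
        map_add' := by
          intro b b'
          funext i
          apply Subtype.ext
          funext c
          exact LinearMap.add_comp _ _ _
        map_smul' := by
          intro x b
          funext i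
          apply Subtype.ext
          funext c
          exact LinearMap.smul_comp _ _ _
        invFun := fun b => ⟨fun c => ∑ i, ((b i).1 c).comp (LinearMap.proj i), by
          refine ⟨fun c c' => ?_, fun g c v => ?_⟩
          · dsimp only
            rw [← Finset.sum_add_distrib]
            refine Finset.sum_congr rfl fun i _ => ?_
            rw [(b i).2.1 c c', LinearMap.add_comp]
          · rw [LinearMap.sum_apply, LinearMap.sum_apply]
            refine Finset.sum_congr rfl fun i _ => ?_
            rw [LinearMap.comp_apply, LinearMap.comp_apply, LinearMap.proj_apply,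
              LinearMap.proj_apply, hτ, (b i).2.2 g c (v i)]⟩
        left_inv := by
          intro b
          apply Subtype.ext
          funext c
          refine LinearMap.ext fun v => ?_
          change (∑ i, ((b.1 c).comp (LinearMap.single F V i)).comp (LinearMap.proj i)) v =
            b.1 c v
          rw [LinearMap.sum_apply]
          simp only [LinearMap.comp_apply, LinearMap.proj_apply]
          rw [← map_sum]
          congr 1
          exact Finset.univ_sum_single v
        right_inv := by
          intro b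
          funext i
          apply Subtype.ext
          funext c
          refine LinearMap.ext fun v => ?_
          change (∑ j, ((b j).1 c).comp (LinearMap.proj j)) (LinearMap.single F V i v) =
            (b i).1 c v
          rw [LinearMap.sum_apply, Finset.sum_eq_single i]
          · simp
          · intro j _ hj
            simp [hj]
          · intro h
            exact absurd (Finset.mem_univ _) h }
    have hfree : ∀ i, Module.Free F (pairings φ (σ i)) := fun i =>
      Module.Free.of_divisionRing F (pairings φ (σ i))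
    have hfd : ∀ i, Module.Finite F (pairings φ (σ i)) := fun i => finite_pairings φ (σ i)
    rw [e.finrank_eq, Module.finrank_pi_fintype]

end Pair

section Reg

variable {F : Type} [Field F] {G : Type} [Group G] [Finite G] {M : Type} [Field M]
  [NumberField M] (φ : G →* (M ≃+* M)) {d : ℕ}

omit [Finite G] in
theorem regRep_single (ρ : G →* GL (Fin d) F) (x : G) [DecidableEq ρ.range] :
    regRep ρ x (Pi.single (1 : ρ.range) (1 : F)) =
      Pi.single (⟨ρ x, x, rfl⟩ : ρ.range) (1 : F) := by
  funext y
  rw [regRep_apply]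
  by_cases h : y = ⟨ρ x, x, rfl⟩
  · subst h
    rw [inv_mul_cancel, Pi.single_eq_same, Pi.single_eq_same]
  · rw [Pi.single_eq_of_ne h, Pi.single_eq_of_ne]
    intro h'
    apply h
    exact (inv_mul_eq_one.1 h').symm

/-- invariant pairings with the regular representation are homomorphisms -/
theorem pair_reg (ρ : G →* GL (Fin d) F) (hρ : Function.Injective ρ) :
    Module.finrank F (pairings φ (regRep ρ)) = classRank F M := by
  classical
  have : Fintype G := Fintype.ofFinite G
  have : Fintype ρ.range := Fintype.ofFinite _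
  have hbij : Function.Bijective (fun x : G => (⟨ρ x, x, rfl⟩ : ρ.range)) := by
    constructor
    · intro x y h
      exact hρ (congrArg Subtype.val h)
    · rintro ⟨_, x, rfl⟩
      exact ⟨x, rfl⟩
  let B : (ClassGroup (𝓞 M) → F) → ClassGroup (𝓞 M) → ((ρ.range → F) →ₗ[F] F) :=
    fun f c =>
      { toFun := fun v => ∑ x : G, v ⟨ρ x, x, rfl⟩ * f (classAct (φ x⁻¹) c)
        map_add' := by
          intro v w
          simp only [Pi.add_apply, add_mul, Finset.sum_add_distrib]
        map_smul' := by
          intro a v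
          simp only [Pi.smul_apply, smul_eq_mul, mul_assoc, Finset.mul_sum, RingHom.id_apply] }
  have hB : ∀ f c v, B f c v = ∑ x : G, v ⟨ρ x, x, rfl⟩ * f (classAct (φ x⁻¹) c) :=
    fun f c v => rfl
  let e : classHom F M ≃ₗ[F] pairings φ (regRep ρ) :=
    { toFun := fun f => ⟨B f.1, by
        refine ⟨fun c c' => ?_, fun g c v => ?_⟩
        · refine LinearMap.ext fun v => ?_
          rw [LinearMap.add_apply, hB, hB, hB, ← Finset.sum_add_distrib]
          refine Finset.sum_congr rfl fun x _ => ?_
          rw [classAct_add, f.2, mul_add]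
        · rw [hB, hB, ← Equiv.sum_comp (Equiv.mulLeft g)]
          refine Finset.sum_congr rfl fun y _ => ?_
          rw [regRep_apply, Equiv.coe_mulLeft]
          congr 2
          · rw [inv_mul_eq_iff_eq_mul]
            apply Subtype.ext
            exact map_mul ρ g y
          · rw [mul_inv_rev, map_mul, classAct_mul, ← classAct_mul (φ g⁻¹), ← map_mul,
              inv_mul_cancel, map_one, classAct_one]⟩
      map_add' := by
        intro f f'
        apply Subtype.ext
        funext c
        refine LinearMap.ext fun v => ?_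
        change B (f.1 + f'.1) c v = B f.1 c v + B f'.1 c v
        rw [hB, hB, hB, ← Finset.sum_add_distrib]
        exact Finset.sum_congr rfl fun x _ => mul_add _ _ _
      map_smul' := by
        intro a f
        apply Subtype.ext
        funext c
        refine LinearMap.ext fun v => ?_
        change B (a • f.1) c v = a • B f.1 c v
        rw [hB, hB, smul_eq_mul, Finset.mul_sum]
        refine Finset.sum_congr rfl fun x _ => ?_
        rw [Pi.smul_apply, smul_eq_mul]
        ring
      invFun := fun b => ⟨fun c => b.1 c (Pi.single 1 1), fun c c' => by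
        dsimp only
        rw [b.2.1 c c', LinearMap.add_apply]⟩
      left_inv := by
        intro f
        apply Subtype.ext
        funext c
        change B f.1 c (Pi.single 1 1) = f.1 c
        rw [hB, Finset.sum_eq_single (1 : G)]
        · have h1 : (⟨ρ 1, 1, rfl⟩ : ρ.range) = 1 := Subtype.ext (map_one ρ)
          rw [h1, Pi.single_eq_same, one_mul, inv_one, map_one, classAct_one]
        · intro x _ hx
          rw [Pi.single_eq_of_ne, zero_mul]
          intro h
          apply hx
          apply hρ
          rw [map_one]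
          exact congrArg Subtype.val h
        · intro h
          exact absurd (Finset.mem_univ _) h
      right_inv := by
        intro b
        apply Subtype.ext
        funext c
        refine LinearMap.ext fun v => ?_
        refine (hB (fun c => b.1 c (Pi.single 1 1)) c v).trans ?_
        have h1 : ∀ x : G, b.1 (classAct (φ x⁻¹) c) (Pi.single 1 1) =
            b.1 c (Pi.single ⟨ρ x, x, rfl⟩ 1) := by
          intro x
          have h2 := b.2.2 x (classAct (φ x⁻¹) c) (Pi.single 1 1)
          rw [← h2, regRep_single, ← classAct_mul, ← map_mul, mul_inv_cancel, map_one,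
            classAct_one]
        simp only [h1]
        have h3 : v = ∑ x : G, v ⟨ρ x, x, rfl⟩ • (Pi.single ⟨ρ x, x, rfl⟩ (1 : F) : ρ.range → F) := by
          have h4 : ∑ x : G, v ⟨ρ x, x, rfl⟩ • (Pi.single ⟨ρ x, x, rfl⟩ (1 : F) : ρ.range → F) =
              ∑ y : ρ.range, v y • (Pi.single y (1 : F) : ρ.range → F) :=
            Function.Bijective.sum_comp hbij
              (fun y : ρ.range => v y • (Pi.single y (1 : F) : ρ.range → F))
          rw [h4]
          funext y
          rw [Finset.sum_apply, Finset.sum_eq_single y]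
          · simp
          · intro z _ hz
            rw [Pi.smul_apply, Pi.single_eq_of_ne (Ne.symm hz), smul_zero]
          · intro h
            exact absurd (Finset.mem_univ _) h
        conv_rhs => rw [h3, map_sum]
        refine Finset.sum_congr rfl fun x _ => ?_
        rw [map_smul, smul_eq_mul] }
  rw [← e.finrank_eq]
  rfl

end Reg

section Main

variable {F : Type} [Field F] [Finite F] {G : Type} [Group G] [Finite G]

omit [Finite F] [Finite G] in
theorem card_range {d : ℕ} (ρ : G →* GL (Fin d) F) (hρ : Function.Injective ρ) :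
    Nat.card ρ.range = Nat.card G :=
  Nat.card_congr (MonoidHom.ofInjective hρ).toEquiv.symm

omit [Finite F] [Finite G] in
theorem triv_inj {d : ℕ} (ρ : G →* GL (Fin d) F) (hρ : Function.Injective ρ)
    {V : Type} [AddCommGroup V] [Module F V] (τ : Representation F G V) :
    ∀ g, ρ g = 1 → τ g = 1 := by
  intro g hg
  have : g = 1 := hρ (by rw [hg, map_one])
  rw [this, map_one]

variable {M : Type} [Field M] [NumberField M] (φ : G →* (M ≃+* M)) {d : ℕ}
  (ρ : G →* GL (Fin d) F) (hρ : Function.Injective ρ)

include hρ in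
theorem pair_le (V : Type) [AddCommGroup V] [Module F V] [Module.Finite F V]
    (τ : Representation F G V) :
    pairNum φ τ ≤ Module.finrank F V * classRank F M := by
  let t : TopologicalSpace G := ⊥
  have : DiscreteTopology G := ⟨rfl⟩
  have h1 := reg_quot (pairMu F φ) ρ (isOpen_discrete _) V τ (triv_inj ρ hρ τ)
  have h2 := pair_reg φ ρ hρ
  change pairNum φ τ ≤ Module.finrank F V * Module.finrank F (pairings φ (regRep ρ)) at h1
  rwa [h2] at h1

include hρ in
theorem class_le :
    classRank F M ≤ Nat.card G * ∑ j ∈ Finset.range (Nat.card G), pairNum φ (symPow ρ j) := by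
  let t : TopologicalSpace G := ⊥
  have : DiscreteTopology G := ⟨rfl⟩
  have h1 := few (pairMu F φ) ρ (isOpen_discrete _) _ (regRep ρ) (regRep_triv ρ)
  have h3 : Module.finrank F (ρ.range → F) = Nat.card ρ.range := by
    have : Fintype ρ.range := Fintype.ofFinite _
    rw [Module.finrank_fintype_fun_eq_card, Nat.card_eq_fintype_card]
  have h2 := pair_reg φ ρ hρ
  rw [h3, card_range ρ hρ] at h1
  change Module.finrank F (pairings φ (regRep ρ)) ≤ _ at h1
  rw [h2] at h1
  exact h1

include hρ in
theorem class_growth : ∃ c : ℝ, 0 < c ∧ ∃ N₁ : ℕ, ∀ (M : Type) [Field M] [NumberField M]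
    (φ : G →* (M ≃+* M)), ∀ N ≥ N₁, c * (classRank F M : ℝ) * (N : ℝ) ^ d ≤
      ((∑ j ∈ Finset.range (N + 1), pairNum φ (symPow ρ j) : ℕ) : ℝ) := by
  let t : TopologicalSpace G := ⊥
  have : DiscreteTopology G := ⟨rfl⟩
  obtain ⟨c, hc, N₁, h⟩ := growth ρ (isOpen_discrete _) _ (regRep ρ) (regRep_triv ρ)
  refine ⟨c, hc, N₁, fun M _ _ φ N hN => ?_⟩
  have h1 := h (pairMu F φ) N hN
  have h2 := pair_reg φ ρ hρ
  change c * (Module.finrank F (pairings φ (regRep ρ)) : ℝ) * (N : ℝ) ^ d ≤ _ at h1
  rw [h2] at h1
  exact h1

omit [Finite F] [Finite G] in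
theorem sym_le_ten' (j : ℕ) : pairNum φ (symPow ρ j) ≤ pairNum φ (tenPow ρ j) := by
  let t : TopologicalSpace G := ⊥
  have : DiscreteTopology G := ⟨rfl⟩
  exact sym_le_ten (pairMu F φ) ρ (isOpen_discrete _) j

include hρ in
theorem class_ten (k : ℕ) : d ^ k * classRank F M ≤
    Nat.card G * ∑ j ∈ Finset.range (k + (Nat.card G - 1) + 1), pairNum φ (tenPow ρ j) := by
  let t : TopologicalSpace G := ⊥
  have : DiscreteTopology G := ⟨rfl⟩
  have hG : 0 < Nat.card G := Nat.card_pos
  have h1 := ten_growth (pairMu F φ) ρ (isOpen_discrete _) k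
  have h2 := pair_reg φ ρ hρ
  rw [card_range ρ hρ] at h1
  change d ^ k * Module.finrank F (pairings φ (regRep ρ)) ≤ _ at h1
  rw [h2] at h1
  refine h1.trans (Nat.mul_le_mul_left _ ?_)
  have e : k + (Nat.card G - 1) + 1 = k + Nat.card G := by omega
  rw [e, Finset.sum_range_add]
  refine le_trans (le_of_eq ?_) (Nat.le_add_left _ _)
  refine Finset.sum_congr rfl fun n _ => ?_
  rw [Nat.add_comm]
  rfl

theorem small_mul {f g : ℕ → ℕ} {a : ℕ → ℝ} (ha : ∀ n, 0 < a n) (C : ℕ)
    (h : IsSmall f a) (hle : ∀ n, g n ≤ C * f n) : IsSmall g a := by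
  intro ε hε
  have h1 := h (ε / (C + 1)) (by positivity)
  filter_upwards [h1] with n hn
  have h2 : (g n : ℝ) ≤ C * (f n : ℝ) := by exact_mod_cast hle n
  have hC : (0 : ℝ) < (C : ℝ) + 1 := by positivity
  calc (g n : ℝ) ≤ C * (f n : ℝ) := h2
    _ ≤ C * (ε / (C + 1) * a n) := mul_le_mul_of_nonneg_left hn (Nat.cast_nonneg _)
    _ = (C / (C + 1)) * (ε * a n) := by ring
    _ ≤ 1 * (ε * a n) := by
        apply mul_le_mul_of_nonneg_right _ (mul_pos hε (ha n)).le
        rw [div_le_one hC]
        linarith
    _ = ε * a n := one_mul _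

theorem small_sum {a : ℕ → ℝ} (ha : ∀ n, 0 < a n) (s : Finset ℕ) (f : ℕ → ℕ → ℕ)
    (h : ∀ j ∈ s, IsSmall (f j) a) : IsSmall (fun n => ∑ j ∈ s, f j n) a := by
  classical
  induction s using Finset.induction_on with
  | empty =>
    intro ε hε
    refine Filter.Eventually.of_forall fun n => ?_
    simp only [Finset.sum_empty, Nat.cast_zero]
    exact (mul_pos hε (ha n)).le
  | insert j s hj ih =>
    intro ε hε
    have h1 := h j (Finset.mem_insert_self _ _) (ε / 2) (by positivity)
    have h2 := ih (fun i hi => h i (Finset.mem_insert_of_mem hi)) (ε / 2) (by positivity)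
    filter_upwards [h1, h2] with n hn1 hn2
    rw [Finset.sum_insert hj, Nat.cast_add]
    linarith

end Main

theorem classMain {F : Type} [Field F] [Finite F] {G : Type} [Group G] [Finite G]
    (M : ℕ → Type) [∀ n, Field (M n)] [∀ n, NumberField (M n)]
    (φ : ∀ n, G →* (M n ≃+* M n)) (a : ℕ → ℝ) (ha : ∀ n, 0 < a n) (d : ℕ) (hd : 0 < d)
    (ρ : G →* GL (Fin d) F) (hρ : Function.Injective ρ) :
    List.TFAE [
      IsSmall (fun n => classRank F (M n)) a,
      ∀ j < Nat.card G, IsSmall (fun n => pairNum (φ n) (symPow ρ j)) a,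
      ∀ ε : ℝ, 0 < ε → ∀ N₀ : ℕ, ∃ N ≥ N₀, ∀ᶠ n in Filter.atTop,
        ((∑ j ∈ Finset.range (N + 1), pairNum (φ n) (symPow ρ j) : ℕ) : ℝ) ≤
          ε * (N : ℝ) ^ d * a n,
      ∀ j < Nat.card G, IsSmall (fun n => pairNum (φ n) (tenPow ρ j)) a,
      ∀ ε : ℝ, 0 < ε → ∀ N₀ : ℕ, ∃ N ≥ N₀, ∀ᶠ n in Filter.atTop,
        ((∑ j ∈ Finset.range (N + 1), pairNum (φ n) (tenPow ρ j) : ℕ) : ℝ) ≤
          ε * (d : ℝ) ^ N * a n] := by
  have hG : 0 < Nat.card G := Nat.card_pos
  have hfinS : ∀ j, Module.Finite F (SymSpace F d j) := fun j => finite_homog j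
  have hdr : (1 : ℝ) ≤ (d : ℝ) := by exact_mod_cast hd
  tfae_have 1 → 2 := by
    intro h j _
    exact small_mul ha (Module.finrank F (SymSpace F d j)) h
      (fun n => pair_le (φ n) ρ hρ _ (symPow ρ j))
  tfae_have 2 → 1 := by
    intro h
    exact small_mul ha (Nat.card G)
      (small_sum ha _ (fun j n => pairNum (φ n) (symPow ρ j))
        (fun j hj => h j (Finset.mem_range.1 hj)))
      (fun n => class_le (φ n) ρ hρ)
  tfae_have 1 → 3 := by
    intro h ε hε N₀
    refine ⟨max N₀ 1, le_max_left _ _, ?_⟩
    have h1 := small_sum ha (Finset.range (max N₀ 1 + 1))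
      (fun j n => pairNum (φ n) (symPow ρ j))
      (fun j _ => small_mul ha (Module.finrank F (SymSpace F d j)) h
        (fun n => pair_le (φ n) ρ hρ _ (symPow ρ j))) ε hε
    filter_upwards [h1] with n hn
    refine hn.trans ?_
    have h2 : (1 : ℝ) ≤ ((max N₀ 1 : ℕ) : ℝ) ^ d := by
      apply one_le_pow₀
      exact_mod_cast le_max_right N₀ 1
    have h3 : 0 < ε * a n := mul_pos hε (ha n)
    nlinarith
  tfae_have 3 → 1 := by
    intro h ε hε
    obtain ⟨c, hc, N₁, hg⟩ := class_growth (F := F) ρ hρ
    obtain ⟨N, hN, h1⟩ := h (c * ε) (mul_pos hc hε) (max N₁ 1)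
    have hN1 : 1 ≤ N := le_trans (le_max_right _ _) hN
    filter_upwards [h1] with n hn
    have h2 := hg (M n) (φ n) N (le_trans (le_max_left _ _) hN)
    have h3 : (0 : ℝ) < (N : ℝ) ^ d := by
      have : (0 : ℝ) < (N : ℝ) := by exact_mod_cast hN1
      positivity
    have h4 : (c * (N : ℝ) ^ d) * (classRank F (M n) : ℝ) ≤ (c * (N : ℝ) ^ d) * (ε * a n) := by
      calc (c * (N : ℝ) ^ d) * (classRank F (M n) : ℝ)
          = c * (classRank F (M n) : ℝ) * (N : ℝ) ^ d := by ring
        _ ≤ _ := h2
        _ ≤ c * ε * (N : ℝ) ^ d * a n := hn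
        _ = (c * (N : ℝ) ^ d) * (ε * a n) := by ring
    exact le_of_mul_le_mul_left h4 (mul_pos hc h3)
  tfae_have 1 → 4 := by
    intro h j _
    exact small_mul ha (Module.finrank F ((Fin j → Fin d) → F)) h
      (fun n => pair_le (φ n) ρ hρ _ (tenPow ρ j))
  tfae_have 4 → 2 := by
    intro h j hj
    refine small_mul ha 1 (h j hj) (fun n => ?_)
    rw [one_mul]
    exact sym_le_ten' (φ n) ρ j
  tfae_have 1 → 5 := by
    intro h ε hε N₀
    refine ⟨N₀, le_refl _, ?_⟩
    have h1 := small_sum ha (Finset.range (N₀ + 1))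
      (fun j n => pairNum (φ n) (tenPow ρ j))
      (fun j _ => small_mul ha (Module.finrank F ((Fin j → Fin d) → F)) h
        (fun n => pair_le (φ n) ρ hρ _ (tenPow ρ j))) ε hε
    filter_upwards [h1] with n hn
    refine hn.trans ?_
    have h2 : (1 : ℝ) ≤ (d : ℝ) ^ N₀ := one_le_pow₀ hdr
    have h3 : 0 < ε * a n := mul_pos hε (ha n)
    nlinarith
  tfae_have 5 → 1 := by
    intro h ε hε
    have hGr : (0 : ℝ) < (Nat.card G : ℝ) := by exact_mod_cast hG
    have hdp : (0 : ℝ) < (d : ℝ) := by linarith
    obtain ⟨N, hN, h1⟩ := h (ε / (Nat.card G * (d : ℝ) ^ (Nat.card G - 1))) (by positivity)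
      (Nat.card G - 1)
    obtain ⟨k, rfl⟩ : ∃ k, N = k + (Nat.card G - 1) := ⟨N - (Nat.card G - 1), by omega⟩
    filter_upwards [h1] with n hn
    have h2 := class_ten (φ n) ρ hρ k
    have h2' : (d : ℝ) ^ k * (classRank F (M n) : ℝ) ≤ (Nat.card G : ℝ) *
        ((∑ j ∈ Finset.range (k + (Nat.card G - 1) + 1), pairNum (φ n) (tenPow ρ j) : ℕ) : ℝ) := by
      exact_mod_cast h2
    have h3 : (Nat.card G : ℝ) *
        ((∑ j ∈ Finset.range (k + (Nat.card G - 1) + 1), pairNum (φ n) (tenPow ρ j) : ℕ) : ℝ) ≤
        (Nat.card G : ℝ) * (ε / (Nat.card G * (d : ℝ) ^ (Nat.card G - 1)) *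
          (d : ℝ) ^ (k + (Nat.card G - 1)) * a n) := mul_le_mul_of_nonneg_left hn hGr.le
    have h4 : (Nat.card G : ℝ) * (ε / (Nat.card G * (d : ℝ) ^ (Nat.card G - 1)) *
        (d : ℝ) ^ (k + (Nat.card G - 1)) * a n) = (d : ℝ) ^ k * (ε * a n) := by
      rw [pow_add]
      field_simp
    have h5 : (d : ℝ) ^ k * (classRank F (M n) : ℝ) ≤ (d : ℝ) ^ k * (ε * a n) := by
      linarith
    exact le_of_mul_le_mul_left h5 (by positivity)
  tfae_finish

end Pool.H94.MuSym
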