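import Mathlib

/-!
# Mu-numbers of finite Galois modules, symmetric and tensor powers: definitions

`GK` is the absolute Galois group of a number field `K` (or any topological group), and `F` the
residue field of `R`.  For a finite-dimensional `F`-vector space `V` with an action of `GK` with
open kernel let `h V` be the rank over `F[[Γ]]` of the Iwasawa cohomology
`H^2_Iw(O_{K,S}, V)` (it does not depend on `S`).  It has the two properties of the structure
`MuNumber`: it does not increase in quotients, because `H^2` is right exact for odd `p`, and it is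
additive on finite direct sums.
-/

namespace Pool.H94.MuSym

open MvPolynomial

/-- `V`, with the action `τ` of `GK`, is a finite Galois module: it is finite-dimensional over `F`
and the kernel of the action is open. -/
def IsFiniteModule (F : Type) [Field F] (GK : Type) [Group GK] [TopologicalSpace GK]
    (V : Type) [AddCommGroup V] [Module F V] (τ : Representation F GK V) : Prop :=
  Module.Finite F V ∧ IsOpen {g : GK | τ g = 1}

/-- A function `h` on the finite Galois modules over `F` (such as the mu-number) which does not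
increase when one passes to a quotient module, and is additive on finite direct sums. -/
structure MuNumber (F : Type) [Field F] (GK : Type) [Group GK] [TopologicalSpace GK] where
  /-- the number attached to a module -/
  h : ∀ (V : Type) [AddCommGroup V] [Module F V], Representation F GK V → ℕ
  /-- if `f : V → W` is surjective and commutes with `GK` then `h W ≤ h V` -/
  quot : ∀ (V W : Type) [AddCommGroup V] [Module F V] [AddCommGroup W] [Module F W]
    (ρ : Representation F GK V) (σ : Representation F GK W) (f : V →ₗ[F] W),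
    IsFiniteModule F GK V ρ → Function.Surjective f → (∀ g v, f (ρ g v) = σ g (f v)) →
    h W σ ≤ h V ρ
  /-- `h` of a finite direct sum of modules `V i` is the sum of the `h (V i)` -/
  sum : ∀ (ι : Type) [Fintype ι] (V : ι → Type) [∀ i, AddCommGroup (V i)]
    [∀ i, Module F (V i)] (ρ : ∀ i, Representation F GK (V i))
    (τ : Representation F GK (∀ i, V i)),
    (∀ i, IsFiniteModule F GK (V i) (ρ i)) → (∀ g v i, τ g v i = ρ i g (v i)) →
    h (∀ i, V i) τ = ∑ i, h (V i) (ρ i)

/-- The linear substitution `X_j ↦ ∑_i A_{ij} X_i` in polynomials in `X_1, ..., X_d`. -/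
noncomputable def subst {F : Type} [Field F] {d : ℕ} (A : Matrix (Fin d) (Fin d) F) :
    MvPolynomial (Fin d) F →ₐ[F] MvPolynomial (Fin d) F :=
  aeval (fun j => ∑ i, C (A i j) * X i)

theorem subst_one {F : Type} [Field F] {d : ℕ} :
    subst (1 : Matrix (Fin d) (Fin d) F) = AlgHom.id F _ := by
  ext j
  simp [subst, Matrix.one_apply]

theorem subst_mul {F : Type} [Field F] {d : ℕ} (A B : Matrix (Fin d) (Fin d) F) :
    subst (A * B) = (subst A).comp (subst B) := by
  apply MvPolynomial.algHom_ext
  intro j
  simp only [subst, aeval_X, AlgHom.comp_apply, map_sum, map_mul, Matrix.mul_apply,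
    MvPolynomial.aeval_C, MvPolynomial.algebraMap_eq]
  simp only [Finset.sum_mul, Finset.mul_sum]
  rw [Finset.sum_comm]
  refine Finset.sum_congr rfl fun i _ => Finset.sum_congr rfl fun k _ => ?_
  ring

theorem subst_homog {F : Type} [Field F] {d : ℕ} (A : Matrix (Fin d) (Fin d) F) (n : ℕ)
    (p : MvPolynomial (Fin d) F) (hp : p ∈ homogeneousSubmodule (Fin d) F n) :
    (subst A).toLinearMap p ∈ homogeneousSubmodule (Fin d) F n := by
  rw [mem_homogeneousSubmodule] at hp ⊢
  have h1 : ∀ j : Fin d, IsHomogeneous (∑ i, C (A i j) * X i : MvPolynomial (Fin d) F) 1 := by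
    intro j
    refine IsHomogeneous.sum _ _ _ fun i _ => ?_
    have := (isHomogeneous_C (Fin d) (A i j)).mul (isHomogeneous_X F i)
    simpa using this
  have := hp.aeval (fun j => ∑ i, C (A i j) * X i) h1
  simpa [subst] using this

/-- The space `Sym^n (F^d)`: the homogeneous polynomials of degree `n` in `X_1, ..., X_d`. -/
def SymSpace (F : Type) [Field F] (d n : ℕ) : Type := homogeneousSubmodule (Fin d) F n

/-- Polynomials are added as usual. -/
noncomputable instance SymSpace.addCommGroup (F : Type) [Field F] (d n : ℕ) :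
    AddCommGroup (SymSpace F d n) :=
  Submodule.addCommGroup (homogeneousSubmodule (Fin d) F n)

/-- Polynomials are multiplied by scalars as usual. -/
noncomputable instance SymSpace.module (F : Type) [Field F] (d n : ℕ) :
    Module F (SymSpace F d n) :=
  Submodule.module (homogeneousSubmodule (Fin d) F n)

/-- The linear substitution `subst A` on the space of homogeneous polynomials of degree `n`. -/
noncomputable def substHomog {F : Type} [Field F] {d : ℕ} (n : ℕ)
    (A : Matrix (Fin d) (Fin d) F) : SymSpace F d n →ₗ[F] SymSpace F d n :=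
  (subst A).toLinearMap.restrict (subst_homog A n)

theorem substHomog_one {F : Type} [Field F] {d : ℕ} (n : ℕ) :
    substHomog n (1 : Matrix (Fin d) (Fin d) F) = 1 := by
  refine LinearMap.ext fun p => Subtype.ext ?_
  change subst (1 : Matrix (Fin d) (Fin d) F) p.1 = p.1
  rw [subst_one]
  rfl

theorem substHomog_mul {F : Type} [Field F] {d : ℕ} (n : ℕ)
    (A B : Matrix (Fin d) (Fin d) F) :
    substHomog n (A * B) = substHomog n A * substHomog n B := by
  refine LinearMap.ext fun p => Subtype.ext ?_
  change subst (A * B) p.1 = subst A (subst B p.1)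
  rw [subst_mul]
  rfl

/-- The `n`-th symmetric power of the representation `ρ` of `GK` on `F^d`: the action by linear
substitutions on the homogeneous polynomials of degree `n` in `X_1, ..., X_d`. -/
noncomputable def symPow {F : Type} [Field F] {GK : Type} [Group GK] {d : ℕ}
    (ρ : GK →* GL (Fin d) F) (n : ℕ) : Representation F GK (SymSpace F d n) where
  toFun g := substHomog n (ρ g).val
  map_one' := by rw [map_one, Units.val_one, substHomog_one]
  map_mul' g g' := by rw [map_mul, Units.val_mul, substHomog_mul]

/-- The matrix of the `n`-th tensor power of `A`: the entries are the products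
`A_{i_1 j_1} ... A_{i_n j_n}`. -/
def tenMat {F : Type} [Field F] {d : ℕ} (A : Matrix (Fin d) (Fin d) F) (n : ℕ) :
    Matrix (Fin n → Fin d) (Fin n → Fin d) F :=
  fun i j => ∏ t, A (i t) (j t)

theorem tenMat_one {F : Type} [Field F] {d : ℕ} (n : ℕ) :
    tenMat (1 : Matrix (Fin d) (Fin d) F) n = 1 := by
  classical
  ext i j
  simp only [tenMat, Matrix.one_apply]
  by_cases h : i = j
  · subst h
    simp
  · rw [if_neg h]
    obtain ⟨t, ht⟩ := Function.ne_iff.1 h
    exact Finset.prod_eq_zero (Finset.mem_univ t) (if_neg ht)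

theorem tenMat_mul {F : Type} [Field F] {d : ℕ} (A B : Matrix (Fin d) (Fin d) F) (n : ℕ) :
    tenMat (A * B) n = tenMat A n * tenMat B n := by
  classical
  ext i k
  simp only [tenMat, Matrix.mul_apply]
  rw [Finset.prod_univ_sum]
  simp only [Fintype.piFinset_univ, Finset.prod_mul_distrib]

/-- The `n`-th tensor power of the representation `ρ` of `GK` on `F^d`, on the functions on
the set of multi-indices `(i_1, ..., i_n)`. -/
noncomputable def tenPow {F : Type} [Field F] {GK : Type} [Group GK] {d : ℕ}
    (ρ : GK →* GL (Fin d) F) (n : ℕ) : Representation F GK ((Fin n → Fin d) → F) where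
  toFun g := Matrix.mulVecLin (tenMat (ρ g : Matrix (Fin d) (Fin d) F) n)
  map_one' := by
    rw [map_one, Units.val_one, tenMat_one, Matrix.mulVecLin_one]
    rfl
  map_mul' g g' := by
    rw [map_mul, Units.val_mul, tenMat_mul, Matrix.mulVecLin_mul]
    rfl

/-- `h V = 0` for all finite-dimensional modules `V` on which the kernel of `ρ` acts trivially,
that is, for all modules of the finite group `ρ(GK)`. -/
def Vanishes {F : Type} [Field F] {GK : Type} [Group GK] [TopologicalSpace GK]
    (M : MuNumber F GK) {d : ℕ} (ρ : GK →* GL (Fin d) F) : Prop :=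
  ∀ (V : Type) [AddCommGroup V] [Module F V] (τ : Representation F GK V),
    Module.Finite F V → (∀ g, ρ g = 1 → τ g = 1) → M.h V τ = 0

/-- `h (Sym^0) + h (Sym^1) + ... + h (Sym^N)` for the symmetric powers of `ρ`. -/
noncomputable def symSum {F : Type} [Field F] {GK : Type} [Group GK] [TopologicalSpace GK]
    (M : MuNumber F GK) {d : ℕ} (ρ : GK →* GL (Fin d) F) (N : ℕ) : ℕ :=
  ∑ n ∈ Finset.range (N + 1), M.h (SymSpace F d n) (symPow ρ n)

/-- `h (T^0) + h (T^1) + ... + h (T^N)` for the tensor powers `T^n` of `ρ`. -/
noncomputable def tenSum {F : Type} [Field F] {GK : Type} [Group GK] [TopologicalSpace GK]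
    (M : MuNumber F GK) {d : ℕ} (ρ : GK →* GL (Fin d) F) (N : ℕ) : ℕ :=
  ∑ n ∈ Finset.range (N + 1), M.h ((Fin n → Fin d) → F) (tenPow ρ n)

/-- For all `ε > 0` there are arbitrarily large `N` with
`h (Sym^0) + h (Sym^1) + ... + h (Sym^N) ≤ ε N^d`. -/
def SymSmall {F : Type} [Field F] {GK : Type} [Group GK] [TopologicalSpace GK]
    (M : MuNumber F GK) {d : ℕ} (ρ : GK →* GL (Fin d) F) : Prop :=
  ∀ ε : ℝ, 0 < ε → ∀ N₀ : ℕ, ∃ N ≥ N₀, (symSum M ρ N : ℝ) ≤ ε * (N : ℝ) ^ d

/-- For all `ε > 0` there are arbitrarily large `N` with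
`h (T^0) + h (T^1) + ... + h (T^N) ≤ ε d^N`. -/
def TenSmall {F : Type} [Field F] {GK : Type} [Group GK] [TopologicalSpace GK]
    (M : MuNumber F GK) {d : ℕ} (ρ : GK →* GL (Fin d) F) : Prop :=
  ∀ ε : ℝ, 0 < ε → ∀ N₀ : ℕ, ∃ N ≥ N₀, (tenSum M ρ N : ℝ) ≤ ε * (d : ℝ) ^ N

end Pool.H94.MuSym
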