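import Pool.Agent.H94.MuSym.Defs

/-!
# Mu-numbers of symmetric and tensor powers: proofs

The points of `E^d` with trivial stabiliser, for an extension `E` of `F`, form a free `G`-set, and
the polynomials of degree at most `N` restrict onto all `E`-valued functions on it.
-/

namespace Pool.H94.MuSym

open MvPolynomial

/-- `symPow` on the submodule of homogeneous polynomials -/
noncomputable def symPow0 {F : Type} [Field F] {GK : Type} [Group GK] {d : ℕ}
    (ρ : GK →* GL (Fin d) F) (n : ℕ) :
    Representation F GK (homogeneousSubmodule (Fin d) F n) := symPow ρ n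

section Free

/-- functions on a finite free `H`-set surject onto sums of copies of any `H`-module -/
theorem exists_B {F : Type} [Field F] {H : Type} [Group H] [Finite H] {X : Type}
    [MulAction H X] (free : ∀ (h : H) (x : X), h • x = x → h = 1)
    {V : Type} [AddCommGroup V] [Module F V] (τ : Representation F H V) {m : ℕ}
    (v : Module.Basis (Fin m) F V) {E : Type} [AddCommGroup E] [Module F E] {r : ℕ}
    (b : Module.Basis (Fin r) F E) :
    ∃ B : (Fin m → X → E) →ₗ[F]
        ((Quotient (MulAction.orbitRel H X) × Fin r) → V),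
      Function.Surjective B ∧
      ∀ (h : H) (f : Fin m → X → E), B (fun j x => f j (h⁻¹ • x)) = fun q => τ h (B f q) := by
  classical
  cases nonempty_fintype H
  let B : (Fin m → X → E) →ₗ[F] ((Quotient (MulAction.orbitRel H X) × Fin r) → V) :=
    { toFun := fun f q => ∑ h : H, ∑ j, (b.repr (f j (h • q.1.out)) q.2) • τ h (v j)
      map_add' := by
        intro f g
        funext q
        simp only [Pi.add_apply, map_add, Finsupp.add_apply, add_smul, Finset.sum_add_distrib]
      map_smul' := by
        intro c f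
        funext q
        simp only [Pi.smul_apply, map_smul, Finsupp.smul_apply, smul_eq_mul, mul_smul,
          Finset.smul_sum, RingHom.id_apply] }
  have hB : ∀ f q, B f q = ∑ h : H, ∑ j, (b.repr (f j (h • q.1.out)) q.2) • τ h (v j) :=
    fun f q => rfl
  refine ⟨B, ?_, ?_⟩
  · intro w
    let f : Fin m → X → E := fun j x =>
      if x = (Quotient.mk (MulAction.orbitRel H X) x).out then
        ∑ e, (v.repr (w (Quotient.mk (MulAction.orbitRel H X) x, e)) j) • b e else 0
    refine ⟨f, ?_⟩
    funext q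
    obtain ⟨ω, e⟩ := q
    rw [hB]
    have key : ∀ h : H, (Quotient.mk (MulAction.orbitRel H X) (h • ω.out)) = ω := by
      intro h
      conv_rhs => rw [← Quotient.out_eq ω]
      apply Quotient.sound
      exact ⟨h, rfl⟩
    rw [Finset.sum_eq_single (1 : H)]
    · have : ∀ j, (b.repr (f j ((1 : H) • ω.out)) e) = v.repr (w (ω, e)) j := by
        intro j
        have h1 : f j ((1 : H) • ω.out) = ∑ e, (v.repr (w (ω, e)) j) • b e := by
          simp only [f]
          rw [if_pos]
          · simp only [key]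
          · rw [key 1, one_smul]
        rw [h1]
        simp [Finsupp.single_apply, map_sum]
      simp only [this, map_one, Module.End.one_apply]
      exact v.sum_repr (w (ω, e))
    · intro h _ hne
      apply Finset.sum_eq_zero
      intro j _
      have h1 : f j (h • ω.out) = 0 := by
        simp only [f]
        rw [if_neg]
        rw [key h]
        intro h2
        exact hne (free h _ h2)
      rw [h1]
      simp
    · intro h
      exact absurd (Finset.mem_univ _) h
  · intro h0 f
    funext q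
    rw [hB, hB, map_sum]
    rw [← Equiv.sum_comp (Equiv.mulLeft h0)]
    refine Finset.sum_congr rfl fun h _ => ?_
    rw [map_sum]
    refine Finset.sum_congr rfl fun j _ => ?_
    rw [map_smul]
    simp only [Equiv.coe_mulLeft, map_mul, Module.End.mul_apply]
    rw [smul_smul, ← mul_assoc, inv_mul_cancel, one_mul]

theorem card_free {H : Type} [Group H] [Finite H] {X : Type} [Finite X]
    [MulAction H X] (free : ∀ (h : H) (x : X), h • x = x → h = 1) :
    Nat.card X = Nat.card (Quotient (MulAction.orbitRel H X)) * Nat.card H := by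
  rw [← Nat.card_prod]
  apply Nat.card_congr
  apply MulAction.selfEquivOrbitsQuotientProd
  intro b
  rw [Subgroup.eq_bot_iff_forall]
  intro h hh
  exact free h b hh

end Free

section Points

variable {F : Type} [Field F] {d : ℕ} {E : Type} [Field E] [Algebra F E]

/-- the transposed matrix acts on points -/
noncomputable def tr (A : Matrix (Fin d) (Fin d) F) (x : Fin d → E) : Fin d → E :=
  fun j => ∑ i, algebraMap F E (A i j) * x i

theorem tr_one (x : Fin d → E) : tr (1 : Matrix (Fin d) (Fin d) F) x = x := by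
  funext j
  simp [tr, Matrix.one_apply]

theorem tr_mul (A B : Matrix (Fin d) (Fin d) F) (x : Fin d → E) :
    tr (A * B) x = tr B (tr A x) := by
  funext j
  simp only [tr, Matrix.mul_apply, map_sum, map_mul, Finset.sum_mul, Finset.mul_sum]
  rw [Finset.sum_comm]
  refine Finset.sum_congr rfl fun i _ => Finset.sum_congr rfl fun k _ => ?_
  ring

theorem aeval_subst (A : Matrix (Fin d) (Fin d) F) (x : Fin d → E)
    (p : MvPolynomial (Fin d) F) : aeval x (subst A p) = aeval (tr A x) p := by
  have : (aeval x).comp (subst A) = (aeval (tr A x) : MvPolynomial (Fin d) F →ₐ[F] E) := by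
    apply MvPolynomial.algHom_ext
    intro j
    simp [subst, tr]
  exact DFunLike.congr_fun this p

/-- the evaluation map with values in `E`, on `[E : F]`-tuples of polynomials of degree `≤ N` -/
noncomputable def ev {r : ℕ} (b : Module.Basis (Fin r) F E) (N : ℕ) :
    (∀ nc : Fin (N + 1) × Fin r, homogeneousSubmodule (Fin d) F nc.1) →ₗ[F]
      ((Fin d → E) → E) where
  toFun p x := ∑ nc, b nc.2 * aeval x (p nc : MvPolynomial (Fin d) F)
  map_add' p q := by
    funext x
    simp only [Pi.add_apply, Submodule.coe_add, map_add, mul_add, Finset.sum_add_distrib]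
  map_smul' c p := by
    funext x
    simp only [Pi.smul_apply, Submodule.coe_smul, map_smul, Finset.smul_sum, RingHom.id_apply,
      mul_smul_comm]

theorem ev_monomial {r : ℕ} (b : Module.Basis (Fin r) F E) (N : ℕ) (m : Fin d →₀ ℕ)
    (hm : m.degree ≤ N) (e : E) :
    ∃ p, ∀ x, ev b N p x = eval x (monomial m e) := by
  classical
  refine ⟨fun nc => if h : (nc.1 : ℕ) = m.degree then
      ⟨monomial m (b.repr e nc.2), by
        rw [mem_homogeneousSubmodule, h]
        exact isHomogeneous_monomial _ rfl⟩ else 0, ?_⟩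
  intro x
  simp only [ev, LinearMap.coe_mk, AddHom.coe_mk]
  rw [Fintype.sum_prod_type]
  rw [Finset.sum_eq_single (⟨m.degree, Nat.lt_succ_of_le hm⟩ : Fin (N + 1))]
  · simp only [dif_pos]
    simp only [aeval_monomial, eval_monomial]
    rw [← Finset.sum_congr rfl (fun c _ => mul_assoc _ _ _), ← Finset.sum_mul]
    congr 1
    conv_rhs => rw [← b.sum_repr e]
    refine Finset.sum_congr rfl fun c _ => ?_
    rw [Algebra.smul_def, mul_comm]
  · intro n _ hn
    apply Finset.sum_eq_zero
    intro c _
    have : ¬ ((n : ℕ) = m.degree) := by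
      intro h
      apply hn
      exact Fin.ext h
    simp [this]
  · intro h
    exact absurd (Finset.mem_univ _) h

theorem ev_poly {r : ℕ} (b : Module.Basis (Fin r) F E) (N : ℕ) (P : MvPolynomial (Fin d) E)
    (hP : P.totalDegree ≤ N) : ∃ p, ∀ x, ev b N p x = eval x P := by
  classical
  have : ∀ s ⊆ P.support, ∃ p, ∀ x, ev b N p x = eval x (∑ m ∈ s, monomial m (coeff m P)) := by
    intro s
    induction s using Finset.induction_on with
    | empty =>
      intro _
      exact ⟨0, fun x => by simp⟩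
    | insert a s ha ih =>
      intro hs
      obtain ⟨p, hp⟩ := ih (fun y hy => hs (Finset.mem_insert_of_mem hy))
      have ha' : a ∈ P.support := hs (Finset.mem_insert_self _ _)
      have hdeg : a.degree ≤ N := by
        refine le_trans ?_ hP
        have := le_totalDegree ha'
        simpa [Finsupp.degree, Finsupp.sum] using this
      obtain ⟨q, hq⟩ := ev_monomial b N a hdeg (coeff a P)
      refine ⟨q + p, fun x => ?_⟩
      rw [map_add, Pi.add_apply, hp, hq, Finset.sum_insert ha, map_add]
  obtain ⟨p, hp⟩ := this P.support (Finset.Subset.refl _)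
  exact ⟨p, fun x => by rw [hp x, ← MvPolynomial.as_sum P]⟩

theorem ev_surj {r : ℕ} (b : Module.Basis (Fin r) F E) (N : ℕ) (X : Finset (Fin d → E))
    (interp : ∀ x ∈ X, ∃ P : MvPolynomial (Fin d) E, P.totalDegree ≤ N ∧
      eval x P = 1 ∧ ∀ y ∈ X, y ≠ x → eval y P = 0)
    (f : (Fin d → E) → E) : ∃ p, ∀ x ∈ X, ev b N p x = f x := by
  classical
  choose! P hP1 hP2 hP3 using interp
  obtain ⟨p, hp⟩ := ev_poly b N (∑ x ∈ X, C (f x) * P x) (by
    refine (totalDegree_finsetSum _ _).trans (Finset.sup_le fun x hx => ?_)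
    refine (totalDegree_mul _ _).trans ?_
    rw [totalDegree_C, zero_add]
    exact hP1 x hx)
  refine ⟨p, fun x hx => ?_⟩
  rw [hp, map_sum, Finset.sum_eq_single x]
  · rw [map_mul, eval_C, hP2 x hx, mul_one]
  · intro y hy hne
    rw [map_mul, eval_C, hP3 y hy x hx (Ne.symm hne), mul_zero]
  · intro h
    exact absurd hx h

end Points

section Key

variable {F : Type} [Field F] {GK : Type} [Group GK] [TopologicalSpace GK]
  [IsTopologicalGroup GK] {d : ℕ}

omit [TopologicalSpace GK] [IsTopologicalGroup GK] in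
theorem finite_homog (n : ℕ) : Module.Finite F (homogeneousSubmodule (Fin d) F n) := by
  classical
  have hfin : Set.Finite {m : Fin d →₀ ℕ | m.degree = n} := by
    refine Set.Finite.subset (Set.finite_Iic (Finsupp.equivFunOnFinite.symm fun _ : Fin d => n)) ?_
    intro m hm i
    have hm' : m.degree = n := hm
    simp only [Finsupp.equivFunOnFinite_symm_apply_apply]
    rw [← hm']
    exact Finsupp.le_degree i m
  have : Finite {m : Fin d →₀ ℕ | m.degree = n} := hfin
  let c : homogeneousSubmodule (Fin d) F n →ₗ[F] ({m : Fin d →₀ ℕ | m.degree = n} → F) :=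
    { toFun := fun p m => coeff m.1 (p : MvPolynomial (Fin d) F)
      map_add' := by
        intro p q
        funext m
        simp
      map_smul' := by
        intro a p
        funext m
        simp }
  refine Module.Finite.of_injective c ?_
  intro p q hpq
  apply Subtype.ext
  ext m
  by_cases hm : m.degree = n
  · exact congrFun hpq ⟨m, hm⟩
  · have h1 : ∀ u : homogeneousSubmodule (Fin d) F n,
        coeff m (u : MvPolynomial (Fin d) F) = 0 := fun u => by
      have hu := (mem_homogeneousSubmodule n (u : MvPolynomial (Fin d) F)).1 u.2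
      exact hu.coeff_eq_zero hm
    rw [h1, h1]

theorem isOpen_ker {V : Type} [AddCommGroup V] [Module F V]
    (τ : Representation F GK V) (ρ : GK →* GL (Fin d) F) (hρ : IsOpen {g : GK | ρ g = 1})
    (triv : ∀ g, ρ g = 1 → τ g = 1) : IsOpen {g : GK | τ g = 1} := by
  have h1 : IsOpen ((MonoidHom.ker ρ : Subgroup GK) : Set GK) := hρ
  have h2 : MonoidHom.ker ρ ≤ MonoidHom.ker τ := fun g hg => triv g hg
  exact Subgroup.isOpen_mono h2 h1

omit [TopologicalSpace GK] [IsTopologicalGroup GK] in
theorem symPow0_triv (ρ : GK →* GL (Fin d) F) (n : ℕ) (g : GK) (hg : ρ g = 1) :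
    symPow0 ρ n g = 1 := by
  change substHomog n (ρ g).val = 1
  rw [hg, Units.val_one, substHomog_one]

omit [TopologicalSpace GK] [IsTopologicalGroup GK] in
theorem symPow0_coe (ρ : GK →* GL (Fin d) F) (n : ℕ) (g : GK)
    (p : homogeneousSubmodule (Fin d) F n) :
    (symPow0 ρ n g p : MvPolynomial (Fin d) F) = subst (ρ g : Matrix (Fin d) (Fin d) F) p := rfl

/-- componentwise action on a finite product -/
noncomputable def piRep {ι : Type} (V : ι → Type) [∀ i, AddCommGroup (V i)]
    [∀ i, Module F (V i)] (ρ : ∀ i, Representation F GK (V i)) :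
    Representation F GK (∀ i, V i) where
  toFun g := LinearMap.pi fun i => (ρ i g) ∘ₗ LinearMap.proj i
  map_one' := by
    ext v i
    simp
  map_mul' g g' := by
    ext v i
    simp

theorem key {E : Type} [Field E] [Algebra F E] [Module.Finite F E] [Finite F]
    (M : MuNumber F GK) (ρ : GK →* GL (Fin d) F)
    (hρ : IsOpen {g : GK | ρ g = 1}) (X : Finset (Fin d → E)) (N : ℕ)
    (closed : ∀ g, ∀ x ∈ X, tr (ρ g : Matrix (Fin d) (Fin d) F) x ∈ X)
    (free : ∀ g, ∀ x ∈ X, tr (ρ g : Matrix (Fin d) (Fin d) F) x = x → ρ g = 1)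
    (interp : ∀ x ∈ X, ∃ P : MvPolynomial (Fin d) E, P.totalDegree ≤ N ∧ eval x P = 1 ∧
      ∀ y ∈ X, y ≠ x → eval y P = 0)
    (V : Type) [AddCommGroup V] [Module F V] [Module.Finite F V] (τ : Representation F GK V)
    (triv : ∀ g, ρ g = 1 → τ g = 1) :
    X.card * M.h V τ ≤
      Nat.card ρ.range * (Module.finrank F V * ∑ n ∈ Finset.range (N + 1), M.h _ (symPow0 ρ n)) := by
  classical
  -- the action of the image on V
  have hτ : ∀ g g', ρ g = ρ g' → τ g = τ g' := by
    intro g g' h
    have h1 : ρ (g * g'⁻¹) = 1 := by rw [map_mul, map_inv, h, mul_inv_cancel]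
    have h2 := triv _ h1
    calc τ g = τ (g * g'⁻¹) * τ g' := by rw [← map_mul, inv_mul_cancel_right]
      _ = τ g' := by rw [h2, one_mul]
  let τ' : Representation F ρ.range V :=
    { toFun := fun h => τ (Classical.choose h.2)
      map_one' := by
        rw [← map_one τ]
        apply hτ
        rw [map_one]
        exact Classical.choose_spec (1 : ρ.range).2
      map_mul' := by
        intro h h'
        rw [← map_mul]
        apply hτ
        rw [map_mul, Classical.choose_spec h.2, Classical.choose_spec h'.2]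
        exact Classical.choose_spec (h * h').2 }
  have hτ' : ∀ g, τ' ⟨ρ g, g, rfl⟩ = τ g := by
    intro g
    apply hτ
    exact Classical.choose_spec (⟨ρ g, g, rfl⟩ : ρ.range).2
  -- the action of the image on X
  let act : MulAction ρ.range X :=
    { smul := fun h x => ⟨tr ((h⁻¹ : ρ.range) : GL (Fin d) F).val x.1, by
        obtain ⟨h, g, rfl⟩ := h
        have := closed g⁻¹ x.1 x.2
        simpa using this⟩
      one_smul := by
        intro x
        apply Subtype.ext
        change tr (((1 : ρ.range)⁻¹ : ρ.range) : GL (Fin d) F).val x.1 = x.1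
        simp [tr_one]
      mul_smul := by
        intro h h' x
        apply Subtype.ext
        change tr (((h * h')⁻¹ : ρ.range) : GL (Fin d) F).val x.1 =
          tr ((h⁻¹ : ρ.range) : GL (Fin d) F).val (tr ((h'⁻¹ : ρ.range) : GL (Fin d) F).val x.1)
        rw [← tr_mul]
        simp [mul_inv_rev] }
  have smul_def : ∀ (h : ρ.range) (x : X),
      ((h • x : X) : Fin d → E) = tr ((h⁻¹ : ρ.range) : GL (Fin d) F).val x.1 := fun h x => rfl
  have hfree : ∀ (h : ρ.range) (x : X), h • x = x → h = 1 := by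
    intro h x hx
    obtain ⟨h, g, rfl⟩ := h
    have h1 := congrArg Subtype.val hx
    rw [smul_def] at h1
    have h2 := free g⁻¹ x.1 x.2 (by simpa using h1)
    apply Subtype.ext
    simpa using h2
  let r := Module.finrank F E
  let b : Module.Basis (Fin r) F E := Module.finBasis F E
  let m := Module.finrank F V
  let v : Module.Basis (Fin m) F V := Module.finBasis F V
  obtain ⟨B, hB1, hB2⟩ := exists_B hfree τ' v b
  have hcard := card_free hfree
  let Q := Quotient (MulAction.orbitRel ρ.range X)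
  have : Fintype Q := Fintype.ofFinite Q
  -- source and target
  let S : ((Fin (N + 1) × Fin r) × Fin m) → Type :=
    fun i => homogeneousSubmodule (Fin d) F (i.1.1 : ℕ)
  let σS : ∀ i, Representation F GK (S i) := fun i => symPow0 ρ (i.1.1 : ℕ)
  let T : (Q × Fin r) → Type := fun _ => V
  let σT : ∀ i, Representation F GK (T i) := fun _ => τ
  have hS : ∀ i, IsFiniteModule F GK (S i) (σS i) := fun i =>
    ⟨finite_homog _, isOpen_ker _ ρ hρ (symPow0_triv ρ _)⟩
  have hT : ∀ i, IsFiniteModule F GK (T i) (σT i) := fun i =>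
    ⟨inferInstanceAs (Module.Finite F V), isOpen_ker _ ρ hρ triv⟩
  have hD := M.sum _ S σS (piRep S σS) hS (fun g v i => rfl)
  have hC := M.sum _ T σT (piRep T σT) hT (fun g v i => rfl)
  let evX : (∀ i, S i) →ₗ[F] (Fin m → X → E) :=
    { toFun := fun p j x => ev b N (fun nc => p (nc, j)) x.1
      map_add' := by
        intro p q
        funext j x
        have := congrFun (map_add (ev b N) (fun nc => p (nc, j)) (fun nc => q (nc, j))) x.1
        exact this
      map_smul' := by
        intro c p
        funext j x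
        have := congrFun (map_smul (ev b N) c (fun nc => p (nc, j))) x.1
        exact this }
  have hev : ∀ p j x, evX p j x = ev b N (fun nc => p (nc, j)) x.1 := fun p j x => rfl
  let f : (∀ i, S i) →ₗ[F] (∀ i, T i) := B ∘ₗ evX
  have hf : Function.Surjective f := by
    apply hB1.comp
    intro w
    have : ∀ j, ∃ p, ∀ x ∈ X, ev b N p x =
        (if hx : x ∈ X then w j ⟨x, hx⟩ else 0) :=
      fun j => ev_surj b N X interp (fun x => if hx : x ∈ X then w j ⟨x, hx⟩ else 0)
    choose p hp using this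
    refine ⟨fun i => p i.2 i.1, ?_⟩
    funext j x
    rw [hev]
    have h1 := hp j x.1 x.2
    rw [dif_pos x.2] at h1
    exact h1
  have heq : ∀ g p, f (piRep S σS g p) = piRep T σT g (f p) := by
    intro g p
    have h1 : evX (piRep S σS g p) =
        fun j x => evX p j ((⟨ρ g, g, rfl⟩ : ρ.range)⁻¹ • x) := by
      funext j x
      rw [hev, hev, smul_def]
      simp only [ev, LinearMap.coe_mk, AddHom.coe_mk, inv_inv]
      refine Finset.sum_congr rfl fun nc _ => ?_
      congr 1
      have h2 : (piRep S σS g p (nc, j) : S (nc, j)) = symPow0 ρ (nc.1 : ℕ) g (p (nc, j)) := rfl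
      rw [h2]
      have h3 := symPow0_coe ρ (nc.1 : ℕ) g (p (nc, j))
      refine (congrArg (aeval (x : Fin d → E)) h3).trans ?_
      exact aeval_subst _ _ _
    change B (evX (piRep S σS g p)) = piRep T σT g (B (evX p))
    rw [h1, hB2, hτ']
    rfl
  have hadm : IsFiniteModule F GK (∀ i, S i) (piRep S σS) := by
    refine ⟨?_, ?_⟩
    · have : ∀ i, Module.Finite F (S i) := fun i => (hS i).1
      infer_instance
    · apply isOpen_ker _ ρ hρ
      intro g hg
      refine LinearMap.ext fun p => funext fun i => ?_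
      change (σS i g (p i)) = p i
      have : σS i g = 1 := symPow0_triv ρ _ g hg
      rw [this]
      rfl
  have hfin := M.quot _ _ (piRep S σS) (piRep T σT) f hadm hf heq
  rw [hD, hC] at hfin
  have e1 : ∑ i, M.h (T i) (σT i) = Fintype.card Q * r * M.h V τ := by
    change ∑ _i : Q × Fin r, M.h V τ = _
    rw [Finset.sum_const, Finset.card_univ, Fintype.card_prod, Fintype.card_fin, smul_eq_mul]
  have e2 : ∑ i, M.h (S i) (σS i) =
      r * (m * ∑ n ∈ Finset.range (N + 1), M.h _ (symPow0 ρ n)) := by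
    change ∑ i : (Fin (N + 1) × Fin r) × Fin m, M.h _ (symPow0 ρ (i.1.1 : ℕ)) = _
    rw [Fintype.sum_prod_type, Fintype.sum_prod_type, Finset.sum_range, Finset.mul_sum,
      Finset.mul_sum]
    refine Finset.sum_congr rfl fun n _ => ?_
    change ∑ _c : Fin r, ∑ _j : Fin m, M.h (homogeneousSubmodule (Fin d) F (n : ℕ))
      (symPow0 ρ (n : ℕ)) = _
    rw [Finset.sum_const, Finset.sum_const, Finset.card_univ, Finset.card_univ,
      Fintype.card_fin, Fintype.card_fin, smul_eq_mul, smul_eq_mul]
  rw [e1, e2] at hfin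
  have hr : 0 < r := Module.finrank_pos
  have h4 : Fintype.card Q * M.h V τ ≤ m * ∑ n ∈ Finset.range (N + 1), M.h _ (symPow0 ρ n) := by
    have : r * (Fintype.card Q * M.h V τ) ≤
        r * (m * ∑ n ∈ Finset.range (N + 1), M.h _ (symPow0 ρ n)) := by
      calc r * (Fintype.card Q * M.h V τ) = Fintype.card Q * r * M.h V τ := by ring
        _ ≤ _ := hfin
    exact Nat.le_of_mul_le_mul_left this hr
  have h5 : X.card = Fintype.card Q * Nat.card ρ.range := by
    have : Nat.card X = X.card := by simp
    rw [← this, hcard, Nat.card_eq_fintype_card]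
  calc X.card * M.h V τ = Nat.card ρ.range * (Fintype.card Q * M.h V τ) := by rw [h5]; ring
    _ ≤ _ := Nat.mul_le_mul_left _ h4

end Key

section Count

variable {F : Type} [Field F] {d : ℕ} {E : Type} [Field E] [Algebra F E]

theorem lagrange (X : Finset (Fin d → E)) (x : Fin d → E) (hx : x ∈ X) :
    ∃ P : MvPolynomial (Fin d) E, P.totalDegree ≤ X.card - 1 ∧ eval x P = 1 ∧
      ∀ y ∈ X, y ≠ x → eval y P = 0 := by
  classical
  have hc : ∀ y : {y // y ∈ X.erase x}, ∃ c, x c - y.1 c ≠ 0 := by
    intro y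
    by_contra hcon
    push Not at hcon
    have hy := y.2
    rw [Finset.mem_erase] at hy
    exact hy.1 (funext fun c => (sub_eq_zero.1 (hcon c)).symm)
  choose c hc using hc
  refine ⟨∏ y ∈ (X.erase x).attach,
    (C (x (c y) - y.1 (c y))⁻¹ * (MvPolynomial.X (c y) - C (y.1 (c y)))), ?_, ?_, ?_⟩
  · refine (totalDegree_finsetProd _ _).trans ?_
    rw [← Finset.card_erase_of_mem hx, ← Finset.card_attach, Finset.card_eq_sum_ones]
    refine Finset.sum_le_sum fun y _ => ?_
    refine (totalDegree_mul _ _).trans ?_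
    rw [totalDegree_C, zero_add]
    refine (totalDegree_sub _ _).trans ?_
    rw [totalDegree_C, totalDegree_X]
    simp
  · rw [map_prod]
    apply Finset.prod_eq_one
    intro y _
    simp only [map_mul, eval_C, map_sub, eval_X]
    exact inv_mul_cancel₀ (hc y)
  · intro y hy hne
    rw [map_prod]
    apply Finset.prod_eq_zero (Finset.mem_attach _ ⟨y, Finset.mem_erase.2 ⟨hne, hy⟩⟩)
    simp

theorem indicator_deg [Fintype E] (a : Fin d → E) :
    (indicator a).totalDegree ≤ d * (Fintype.card E - 1) := by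
  classical
  rw [indicator]
  refine (totalDegree_finsetProd _ _).trans ?_
  have : ∀ n : Fin d, (1 - (MvPolynomial.X n - C (a n)) ^ (Fintype.card E - 1) :
      MvPolynomial (Fin d) E).totalDegree ≤ Fintype.card E - 1 := by
    intro n
    refine (totalDegree_sub _ _).trans ?_
    rw [totalDegree_one]
    simp only [zero_le, sup_of_le_right]
    refine (totalDegree_pow _ _).trans ?_
    have h1 : (MvPolynomial.X n - C (a n) : MvPolynomial (Fin d) E).totalDegree ≤ 1 := by
      refine (totalDegree_sub _ _).trans ?_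
      rw [totalDegree_C, totalDegree_X]
      simp
    calc (Fintype.card E - 1) * _ ≤ (Fintype.card E - 1) * 1 := Nat.mul_le_mul_left _ h1
      _ = _ := mul_one _
  refine (Finset.sum_le_sum fun n _ => this n).trans ?_
  simp

theorem tr_eq_imp_one (A : Matrix (Fin d) (Fin d) F) (h : ∀ x : Fin d → E, tr A x = x) :
    A = 1 := by
  classical
  ext i j
  have h1 := congrFun (h (Pi.single i 1)) j
  simp only [tr, Pi.single_apply, mul_ite, mul_one, mul_zero, Finset.sum_ite_eq',
    Finset.mem_univ, if_true] at h1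
  rw [Matrix.one_apply]
  apply (algebraMap F E).injective
  rw [h1]
  by_cases hij : i = j
  · simp [hij]
  · rw [if_neg hij, if_neg (fun h => hij h.symm), map_zero]

/-- the fixed space of a matrix, as a linear subspace -/
noncomputable def fixSp (A : Matrix (Fin d) (Fin d) F) : Submodule E (Fin d → E) where
  carrier := {x | tr A x = x}
  zero_mem' := by
    funext j
    simp [tr]
  add_mem' := by
    intro x y hx hy
    have hx' : tr A x = x := hx
    have hy' : tr A y = y := hy
    change tr A (x + y) = x + y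
    conv_rhs => rw [← hx', ← hy']
    funext j
    simp [tr, mul_add, Finset.sum_add_distrib]
  smul_mem' := by
    intro c x hx
    have hx' : tr A x = x := hx
    change tr A (c • x) = c • x
    conv_rhs => rw [← hx']
    funext j
    simp only [tr, Pi.smul_apply, smul_eq_mul, Finset.mul_sum]
    exact Finset.sum_congr rfl fun i _ => by ring

theorem card_fix [Finite E] (A : Matrix (Fin d) (Fin d) F) (hA : A ≠ 1) :
    Nat.card (fixSp (E := E) A) ≤ Nat.card E ^ (d - 1) := by
  have h1 : fixSp (E := E) A ≠ ⊤ := by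
    intro h
    apply hA
    apply tr_eq_imp_one (E := E)
    intro x
    have : x ∈ fixSp (E := E) A := by rw [h]; trivial
    exact this
  have h2 : Module.finrank E (fixSp (E := E) A) < Module.finrank E (Fin d → E) :=
    Submodule.finrank_lt h1
  rw [Module.finrank_fin_fun] at h2
  rw [Module.natCard_eq_pow_finrank (K := E)]
  exact Nat.pow_le_pow_right Nat.card_pos (by omega)

theorem card_freePts [Finite F] [Fintype E] {GK : Type} [Group GK] (ρ : GK →* GL (Fin d) F) :
    ∃ X : Finset (Fin d → E),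
      (∀ g, ∀ x ∈ X, tr (ρ g : Matrix (Fin d) (Fin d) F) x ∈ X) ∧
      (∀ g, ∀ x ∈ X, tr (ρ g : Matrix (Fin d) (Fin d) F) x = x → ρ g = 1) ∧
      Fintype.card E ^ d ≤ X.card + (Nat.card ρ.range - 1) * Fintype.card E ^ (d - 1) := by
  classical
  have hGfin : Finite ρ.range := inferInstance
  have : Fintype ρ.range := Fintype.ofFinite _
  let X : Finset (Fin d → E) := Finset.univ.filter
    (fun x => ∀ g, tr (ρ g : Matrix (Fin d) (Fin d) F) x = x → ρ g = 1)
  have hX : ∀ x, x ∈ X ↔ ∀ g, tr (ρ g : Matrix (Fin d) (Fin d) F) x = x → ρ g = 1 := by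
    intro x
    simp [X]
  refine ⟨X, ?_, ?_, ?_⟩
  · intro g x hx
    rw [hX] at hx ⊢
    intro g' hg'
    have h1 : tr (ρ (g * g' * g⁻¹) : Matrix (Fin d) (Fin d) F) x = x := by
      rw [map_mul, map_mul, Units.val_mul, Units.val_mul, tr_mul, tr_mul, hg', ← tr_mul,
        ← Units.val_mul, ← map_mul, mul_inv_cancel, map_one, Units.val_one, tr_one]
    have h2 := hx _ h1
    rw [map_mul, map_mul, map_inv] at h2
    have h3 : ρ g * ρ g' = ρ g := mul_inv_eq_one.1 h2
    exact mul_eq_left.1 h3
  · intro g x hx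
    exact (hX x).1 hx g
  · have hcov : (Finset.univ : Finset (Fin d → E)) ⊆ X ∪
        ((Finset.univ.erase (1 : ρ.range)).biUnion
          (fun h => Finset.univ.filter (fun x => tr (h : GL (Fin d) F).val x = x))) := by
      intro x _
      by_cases hx : x ∈ X
      · exact Finset.mem_union_left _ hx
      · apply Finset.mem_union_right
        rw [hX] at hx
        push Not at hx
        obtain ⟨g, hg1, hg2⟩ := hx
        rw [Finset.mem_biUnion]
        refine ⟨⟨ρ g, g, rfl⟩, ?_, ?_⟩
        · rw [Finset.mem_erase]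
          refine ⟨?_, Finset.mem_univ _⟩
          intro h
          exact hg2 (congrArg Subtype.val h)
        · simp [hg1]
    have h1 := Finset.card_le_card hcov
    rw [Finset.card_univ, Fintype.card_fun, Fintype.card_fin] at h1
    refine h1.trans ((Finset.card_union_le _ _).trans ?_)
    refine Nat.add_le_add_left ?_ _
    refine (Finset.card_biUnion_le).trans ?_
    have h2 : ∀ h ∈ (Finset.univ.erase (1 : ρ.range)),
        (Finset.univ.filter (fun x : Fin d → E => tr (h : GL (Fin d) F).val x = x)).card ≤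
          Fintype.card E ^ (d - 1) := by
      intro h hh
      have hne : (h : GL (Fin d) F).val ≠ 1 := by
        intro h'
        rw [Finset.mem_erase] at hh
        apply hh.1
        apply Subtype.ext
        apply Units.ext
        exact h'
      have h3 := card_fix (E := E) _ hne
      rw [Nat.card_eq_fintype_card (α := E)] at h3
      refine le_trans (le_of_eq ?_) h3
      rw [← Fintype.card_subtype, Nat.card_eq_fintype_card]
      exact Fintype.card_congr (Equiv.refl _)
    refine (Finset.sum_le_sum h2).trans ?_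
    rw [Finset.sum_const, Finset.card_erase_of_mem (Finset.mem_univ _), Finset.card_univ,
      smul_eq_mul, Nat.card_eq_fintype_card]

end Count

section Tensor

variable {F : Type} [Field F] {GK : Type} [Group GK] {d : ℕ}

/-- the `k`-th tensor power of `ρ` tensored with `τ`, on functions `(Fin k → Fin d) → V` -/
noncomputable def twRep (ρ : GK →* GL (Fin d) F) (k : ℕ) {V : Type} [AddCommGroup V]
    [Module F V] (τ : Representation F GK V) :
    Representation F GK ((Fin k → Fin d) → V) where
  toFun g := LinearMap.pi fun i =>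
    ∑ j, tenMat (ρ g : Matrix (Fin d) (Fin d) F) k i j • (τ g ∘ₗ LinearMap.proj j)
  map_one' := by
    classical
    refine LinearMap.ext fun w => funext fun i => ?_
    simp only [map_one, Units.val_one, tenMat_one, LinearMap.pi_apply, LinearMap.comp_apply,
      LinearMap.proj_apply, Module.End.one_apply, Matrix.one_apply, ite_smul, one_smul,
      zero_smul, Finset.sum_ite_eq, Finset.mem_univ, if_true]
  map_mul' g g' := by
    classical
    refine LinearMap.ext fun w => funext fun i => ?_
    simp only [map_mul, Units.val_mul, tenMat_mul, LinearMap.pi_apply, LinearMap.sum_apply,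
      LinearMap.smul_apply, LinearMap.comp_apply, LinearMap.proj_apply, Module.End.mul_apply,
      Matrix.mul_apply, Finset.sum_smul, map_sum, map_smul, Finset.smul_sum, smul_smul]
    rw [Finset.sum_comm]

theorem twRep_apply (ρ : GK →* GL (Fin d) F) (k : ℕ) {V : Type} [AddCommGroup V]
    [Module F V] (τ : Representation F GK V) (g : GK) (w : (Fin k → Fin d) → V)
    (i : Fin k → Fin d) :
    twRep ρ k τ g w i = ∑ j, tenMat (ρ g : Matrix (Fin d) (Fin d) F) k i j • τ g (w j) := by
  simp [twRep, LinearMap.sum_apply]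

theorem tenPow_apply (ρ : GK →* GL (Fin d) F) (n : ℕ) (g : GK) (f : (Fin n → Fin d) → F)
    (i : Fin n → Fin d) :
    tenPow ρ n g f i = ∑ j, tenMat (ρ g : Matrix (Fin d) (Fin d) F) n i j * f j := by
  rfl

theorem tenPow_triv (ρ : GK →* GL (Fin d) F) (n : ℕ) (g : GK) (hg : ρ g = 1) :
    tenPow ρ n g = 1 := by
  refine LinearMap.ext fun f => ?_
  change Matrix.mulVec _ _ = _
  rw [hg, Units.val_one, tenMat_one, Matrix.one_mulVec]
  rfl

variable [TopologicalSpace GK] [IsTopologicalGroup GK]

theorem open_inter {V W : Type} [AddCommGroup V] [Module F V] [AddCommGroup W] [Module F W]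
    (τ : Representation F GK V) (σ : Representation F GK W) (ρ : GK →* GL (Fin d) F)
    (hρ : IsOpen {g : GK | ρ g = 1}) (hτ : IsOpen {g : GK | τ g = 1})
    (triv : ∀ g, ρ g = 1 → τ g = 1 → σ g = 1) : IsOpen {g : GK | σ g = 1} := by
  have h1 : IsOpen (((MonoidHom.ker ρ ⊓ MonoidHom.ker τ : Subgroup GK)) : Set GK) := by
    rw [Subgroup.coe_inf]
    exact hρ.inter hτ
  have h2 : MonoidHom.ker ρ ⊓ MonoidHom.ker τ ≤ MonoidHom.ker σ :=
    fun g hg => triv g hg.1 hg.2
  exact Subgroup.isOpen_mono h2 h1

omit [TopologicalSpace GK] [IsTopologicalGroup GK] in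
theorem twRep_triv (ρ : GK →* GL (Fin d) F) (k : ℕ) {V : Type} [AddCommGroup V]
    [Module F V] (τ : Representation F GK V) (g : GK) (h1 : ρ g = 1) (h2 : τ g = 1) :
    twRep ρ k τ g = 1 := by
  classical
  refine LinearMap.ext fun w => funext fun i => ?_
  rw [twRep_apply]
  simp [h1, h2, tenMat_one, Matrix.one_apply]

theorem twRep_fin (ρ : GK →* GL (Fin d) F) (hρ : IsOpen {g : GK | ρ g = 1}) (k : ℕ) {V : Type}
    [AddCommGroup V] [Module F V] (τ : Representation F GK V) (h : IsFiniteModule F GK V τ) :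
    IsFiniteModule F GK ((Fin k → Fin d) → V) (twRep ρ k τ) := by
  have := h.1
  exact ⟨inferInstance, open_inter τ _ ρ hρ h.2 (fun g h1 h2 => twRep_triv ρ k τ g h1 h2)⟩

/-- mu-numbers can be twisted by a tensor power -/
noncomputable def twist (M : MuNumber F GK) (ρ : GK →* GL (Fin d) F)
    (hρ : IsOpen {g : GK | ρ g = 1}) (k : ℕ) : MuNumber F GK where
  h := fun V _ _ τ => M.h ((Fin k → Fin d) → V) (twRep ρ k τ)
  quot := by
    intro V W _ _ _ _ τ σ f hτ hf heq
    refine M.quot _ _ (twRep ρ k τ) (twRep ρ k σ)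
      (LinearMap.pi fun i => f ∘ₗ LinearMap.proj i) (twRep_fin ρ hρ k τ hτ) ?_ ?_
    · intro w
      choose p hp using fun i => hf (w i)
      exact ⟨p, funext fun i => hp i⟩
    · intro g w
      funext i
      rw [twRep_apply]
      change f (twRep ρ k τ g w i) = _
      rw [twRep_apply, map_sum]
      refine Finset.sum_congr rfl fun j _ => ?_
      rw [map_smul, heq]
      rfl
  sum := by
    intro ι _ V _ _ σ τ hσ hτ
    have hV : ∀ i, Module.Finite F (V i) := fun i => (hσ i).1
    have hs := M.sum ι (fun i => (Fin k → Fin d) → V i) (fun i => twRep ρ k (σ i))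
      (piRep _ (fun i => twRep ρ k (σ i))) (fun i => twRep_fin ρ hρ k (σ i) (hσ i))
      (fun g v i => rfl)
    rw [← hs]
    have hopen : IsOpen {g : GK | τ g = 1} := by
      have h1 : IsOpen (((⨅ i, MonoidHom.ker (σ i) : Subgroup GK)) : Set GK) := by
        rw [Subgroup.coe_iInf]
        exact isOpen_iInter_of_finite fun i => (hσ i).2
      have h2 : (⨅ i, MonoidHom.ker (σ i)) ≤ MonoidHom.ker τ := by
        intro g hg
        rw [Subgroup.mem_iInf] at hg
        refine LinearMap.ext fun v => funext fun i => ?_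
        rw [hτ]
        have : σ i g = 1 := hg i
        rw [this]
        rfl
      exact Subgroup.isOpen_mono h2 h1
    have hfτ : IsFiniteModule F GK (∀ i, V i) τ := ⟨inferInstance, hopen⟩
    have hadm1 := twRep_fin ρ hρ k τ hfτ
    have hadm2 : IsFiniteModule F GK (∀ i, (Fin k → Fin d) → V i) (piRep _ (fun i => twRep ρ k (σ i))) := by
      refine ⟨inferInstance, open_inter τ _ ρ hρ hopen ?_⟩
      intro g h1 h2
      refine LinearMap.ext fun v => funext fun i => ?_
      change twRep ρ k (σ i) g (v i) = v i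
      rw [twRep_triv ρ k (σ i) g h1]
      · rfl
      · refine LinearMap.ext fun x => ?_
        classical
        have h3 := hτ g (Pi.single i x) i
        rw [h2] at h3
        simp only [Module.End.one_apply, Pi.single_eq_same] at h3
        rw [Module.End.one_apply]
        exact h3.symm
    apply le_antisymm
    · refine M.quot _ _ (piRep _ (fun i => twRep ρ k (σ i))) (twRep ρ k τ)
        (LinearMap.pi fun j => LinearMap.pi fun i => LinearMap.proj j ∘ₗ LinearMap.proj i)
        hadm2 ?_ ?_
      · intro w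
        exact ⟨fun i j => w j i, rfl⟩
      · intro g v
        funext j i
        change twRep ρ k (σ i) g (v i) j = twRep ρ k τ g (fun j i => v i j) j i
        rw [twRep_apply, twRep_apply, Finset.sum_apply]
        refine Finset.sum_congr rfl fun l _ => ?_
        rw [Pi.smul_apply, hτ]
    · refine M.quot _ _ (twRep ρ k τ) (piRep _ (fun i => twRep ρ k (σ i)))
        (LinearMap.pi fun i => LinearMap.pi fun j => LinearMap.proj i ∘ₗ LinearMap.proj j)
        hadm1 ?_ ?_
      · intro w
        exact ⟨fun j i => w i j, rfl⟩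
      · intro g v
        funext i j
        change twRep ρ k τ g v j i = twRep ρ k (σ i) g (fun j => v j i) j
        rw [twRep_apply, twRep_apply, Finset.sum_apply]
        refine Finset.sum_congr rfl fun l _ => ?_
        rw [Pi.smul_apply, hτ]

end Tensor

section Mono

variable {F : Type} [Field F] {GK : Type} [Group GK] {d : ℕ}

theorem mon_mem (n : ℕ) (j : Fin n → Fin d) :
    (∏ t, X (j t) : MvPolynomial (Fin d) F) ∈ homogeneousSubmodule (Fin d) F n := by
  rw [mem_homogeneousSubmodule]
  have := IsHomogeneous.prod (Finset.univ : Finset (Fin n))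
    (fun t => (X (j t) : MvPolynomial (Fin d) F)) (fun _ => 1) (fun t _ => isHomogeneous_X F _)
  simpa using this

/-- the product of the variables `X_{j_t}` as an element of the symmetric power -/
noncomputable def mon (n : ℕ) (j : Fin n → Fin d) : homogeneousSubmodule (Fin d) F n :=
  ⟨∏ t, X (j t), mon_mem n j⟩

theorem mon_exists (n : ℕ) (m : Fin d →₀ ℕ) (hm : m.degree = n) :
    ∃ j : Fin n → Fin d, (∏ t, X (j t) : MvPolynomial (Fin d) F) = monomial m 1 := by
  classical
  induction n generalizing m with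
  | zero =>
    have : m = 0 := by
      rw [Finsupp.degree_eq_zero_iff] at hm
      exact hm
    subst this
    exact ⟨Fin.elim0, by simp⟩
  | succ n ih =>
    have hne : m ≠ 0 := by
      intro h
      rw [h, map_zero] at hm
      omega
    obtain ⟨i, hi⟩ := Finsupp.ne_iff.1 hne
    rw [Finsupp.coe_zero, Pi.zero_apply] at hi
    have hle : Finsupp.single i 1 ≤ m := by
      rw [Finsupp.single_le_iff]
      omega
    have hsplit : m - Finsupp.single i 1 + Finsupp.single i 1 = m := tsub_add_cancel_of_le hle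
    have hdeg : (m - Finsupp.single i 1).degree = n := by
      have := congrArg Finsupp.degree hsplit
      rw [map_add, Finsupp.degree_single, hm] at this
      omega
    obtain ⟨j, hj⟩ := ih _ hdeg
    refine ⟨Fin.snoc j i, ?_⟩
    rw [Fin.prod_univ_castSucc]
    simp only [Fin.snoc_castSucc, Fin.snoc_last]
    rw [hj]
    conv_rhs => rw [← hsplit]
    rw [monomial_add_single, pow_one]

theorem mon_span (n : ℕ) (p : homogeneousSubmodule (Fin d) F n) :
    ∃ c : (Fin n → Fin d) → F, ∑ j, c j • mon n j = p := by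
  classical
  have hp := (mem_homogeneousSubmodule n (p : MvPolynomial (Fin d) F)).1 p.2
  have h1 : ∀ s ⊆ (p : MvPolynomial (Fin d) F).support, ∃ c : (Fin n → Fin d) → F,
      ∑ j, c j • (∏ t, X (j t) : MvPolynomial (Fin d) F) =
        ∑ m ∈ s, monomial m (coeff m (p : MvPolynomial (Fin d) F)) := by
    intro s
    induction s using Finset.induction_on with
    | empty =>
      intro _
      exact ⟨0, by simp⟩
    | insert a s ha ih =>
      intro hs
      obtain ⟨c, hc⟩ := ih (fun y hy => hs (Finset.mem_insert_of_mem hy))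
      have ha' : coeff a (p : MvPolynomial (Fin d) F) ≠ 0 :=
        mem_support_iff.1 (hs (Finset.mem_insert_self _ _))
      have hdeg : a.degree = n := by
        by_contra hcon
        exact ha' (hp.coeff_eq_zero hcon)
      obtain ⟨j, hj⟩ := mon_exists (F := F) n a hdeg
      refine ⟨Pi.single j (coeff a (p : MvPolynomial (Fin d) F)) + c, ?_⟩
      simp only [Pi.add_apply, add_smul, Finset.sum_add_distrib]
      rw [hc, Finset.sum_insert ha]
      congr 1
      rw [Finset.sum_eq_single j]
      · rw [Pi.single_eq_same, hj, smul_monomial, smul_eq_mul, mul_one]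
      · intro i _ hi
        rw [Pi.single_eq_of_ne hi, zero_smul]
      · intro h
        exact absurd (Finset.mem_univ _) h
  obtain ⟨c, hc⟩ := h1 _ (Finset.Subset.refl _)
  refine ⟨c, ?_⟩
  apply Subtype.ext
  rw [← MvPolynomial.as_sum] at hc
  rw [← hc]
  simp [mon]

theorem symPow0_mon (ρ : GK →* GL (Fin d) F) (n : ℕ) (g : GK) (l : Fin n → Fin d) :
    symPow0 ρ n g (mon n l) =
      ∑ j, tenMat (ρ g : Matrix (Fin d) (Fin d) F) n j l • mon n j := by
  classical
  apply Subtype.ext
  rw [symPow0_coe]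
  simp only [mon, subst, map_prod, aeval_X]
  rw [Finset.prod_univ_sum]
  simp only [Fintype.piFinset_univ, Finset.prod_mul_distrib, Submodule.coe_sum,
    Submodule.coe_smul, tenMat, smul_eq_C_mul, map_prod]

theorem tenMat_append (A : Matrix (Fin d) (Fin d) F) (n k : ℕ) (j l : Fin n → Fin d)
    (i m : Fin k → Fin d) :
    tenMat A (n + k) (Fin.append j i) (Fin.append l m) = tenMat A n j l * tenMat A k i m := by
  simp only [tenMat, Fin.prod_univ_add, Fin.append_left, Fin.append_right]

/-- the projection of the tensor power onto symmetric power times tensor power -/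
noncomputable def toSym (n k : ℕ) : ((Fin (n + k) → Fin d) → F) →ₗ[F]
    ((Fin k → Fin d) → homogeneousSubmodule (Fin d) F n) where
  toFun f i := ∑ j, f (Fin.append j i) • mon n j
  map_add' f g := by
    funext i
    simp only [Pi.add_apply, add_smul, Finset.sum_add_distrib]
  map_smul' c f := by
    funext i
    simp only [Pi.smul_apply, smul_eq_mul, mul_smul, Finset.smul_sum, RingHom.id_apply]

theorem toSym_apply (n k : ℕ) (f : (Fin (n + k) → Fin d) → F) (i : Fin k → Fin d) :
    toSym n k f i = ∑ j, f (Fin.append j i) • mon n j := rfl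

theorem toSym_surj (n k : ℕ) : Function.Surjective (toSym (F := F) (d := d) n k) := by
  intro w
  choose c hc using fun i => mon_span n (w i)
  refine ⟨fun x => c ((Fin.appendEquiv n k).symm x).2 ((Fin.appendEquiv n k).symm x).1, ?_⟩
  funext i
  rw [toSym_apply, ← hc i]
  refine Finset.sum_congr rfl fun j _ => ?_
  have : (Fin.appendEquiv n k).symm (Fin.append j i) = (j, i) := by
    rw [Equiv.symm_apply_eq]
    rfl
  rw [this]

theorem toSym_equiv (ρ : GK →* GL (Fin d) F) (n k : ℕ) (g : GK)
    (f : (Fin (n + k) → Fin d) → F) :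
    toSym n k (tenPow ρ (n + k) g f) = twRep ρ k (symPow0 ρ n) g (toSym n k f) := by
  classical
  funext i
  rw [toSym_apply, twRep_apply]
  simp only [toSym_apply, tenPow_apply, map_sum, map_smul, symPow0_mon]
  have h1 : ∀ j : Fin n → Fin d,
      ∑ x, tenMat (ρ g : Matrix (Fin d) (Fin d) F) (n + k) (Fin.append j i) x * f x =
      ∑ m : Fin k → Fin d, ∑ l : Fin n → Fin d,
        tenMat (ρ g : Matrix (Fin d) (Fin d) F) n j l *
        tenMat (ρ g : Matrix (Fin d) (Fin d) F) k i m * f (Fin.append l m) := by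
    intro j
    rw [← Equiv.sum_comp (Fin.appendEquiv n k), Fintype.sum_prod_type, Finset.sum_comm]
    refine Finset.sum_congr rfl fun m _ => Finset.sum_congr rfl fun l _ => ?_
    change tenMat _ _ _ (Fin.append l m) * f (Fin.append l m) = _
    rw [tenMat_append]
  simp only [h1, Finset.sum_smul, Finset.smul_sum, smul_smul]
  rw [Finset.sum_comm]
  refine Finset.sum_congr rfl fun m _ => ?_
  rw [Finset.sum_comm]
  refine Finset.sum_congr rfl fun l _ => Finset.sum_congr rfl fun j _ => ?_
  congr 1
  ring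

variable [TopologicalSpace GK] [IsTopologicalGroup GK]

theorem tenPow_fin (ρ : GK →* GL (Fin d) F) (hρ : IsOpen {g : GK | ρ g = 1}) (n : ℕ) :
    IsFiniteModule F GK _ (tenPow ρ n) :=
  ⟨inferInstance, isOpen_ker _ ρ hρ (tenPow_triv ρ n)⟩

theorem tw_le_ten (M : MuNumber F GK) (ρ : GK →* GL (Fin d) F)
    (hρ : IsOpen {g : GK | ρ g = 1}) (n k : ℕ) :
    M.h _ (twRep ρ k (symPow0 ρ n)) ≤ M.h _ (tenPow ρ (n + k)) :=
  M.quot _ _ _ _ (toSym n k) (tenPow_fin ρ hρ (n + k)) (toSym_surj n k)
    (toSym_equiv ρ n k)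

theorem sym_le_ten (M : MuNumber F GK) (ρ : GK →* GL (Fin d) F)
    (hρ : IsOpen {g : GK | ρ g = 1}) (n : ℕ) :
    M.h _ (symPow0 ρ n) ≤ M.h _ (tenPow ρ n) := by
  classical
  have h1 := tw_le_ten M ρ hρ n 0
  refine le_trans ?_ h1
  refine M.quot _ _ (twRep ρ 0 (symPow0 ρ n)) (symPow0 ρ n) (LinearMap.proj default)
    (twRep_fin ρ hρ 0 _ ⟨finite_homog n, isOpen_ker _ ρ hρ (symPow0_triv ρ n)⟩) ?_ ?_
  · intro w
    exact ⟨fun _ => w, rfl⟩
  · intro g w
    rw [LinearMap.proj_apply, LinearMap.proj_apply, twRep_apply]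
    rw [Fintype.sum_unique]
    simp [tenMat]

end Mono

section Reg

variable {F : Type} [Field F] {GK : Type} [Group GK] {d : ℕ}

/-- the regular representation of the image of `ρ` -/
noncomputable def regRep (ρ : GK →* GL (Fin d) F) : Representation F GK (ρ.range → F) where
  toFun g := LinearMap.funLeft F F (fun x : ρ.range => (⟨ρ g, g, rfl⟩ : ρ.range)⁻¹ * x)
  map_one' := by
    refine LinearMap.ext fun f => funext fun x => ?_
    rw [LinearMap.funLeft_apply]
    have : (⟨ρ 1, 1, rfl⟩ : ρ.range) = 1 := Subtype.ext (map_one ρ)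
    rw [this, inv_one, one_mul]
    rfl
  map_mul' g g' := by
    refine LinearMap.ext fun f => funext fun x => ?_
    rw [LinearMap.funLeft_apply, Module.End.mul_apply, LinearMap.funLeft_apply,
      LinearMap.funLeft_apply]
    have : (⟨ρ (g * g'), g * g', rfl⟩ : ρ.range) = ⟨ρ g, g, rfl⟩ * ⟨ρ g', g', rfl⟩ :=
      Subtype.ext (map_mul ρ g g')
    rw [this, mul_inv_rev, mul_assoc]

theorem regRep_apply (ρ : GK →* GL (Fin d) F) (g : GK) (f : ρ.range → F) (x : ρ.range) :
    regRep ρ g f x = f ((⟨ρ g, g, rfl⟩ : ρ.range)⁻¹ * x) := rfl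

theorem regRep_triv (ρ : GK →* GL (Fin d) F) (g : GK) (hg : ρ g = 1) : regRep ρ g = 1 := by
  refine LinearMap.ext fun f => funext fun x => ?_
  rw [regRep_apply]
  have : (⟨ρ g, g, rfl⟩ : ρ.range) = 1 := Subtype.ext hg
  rw [this, inv_one, one_mul]
  rfl

theorem exists_descend (ρ : GK →* GL (Fin d) F) {V : Type} [AddCommGroup V] [Module F V]
    (τ : Representation F GK V) (triv : ∀ g, ρ g = 1 → τ g = 1) :
    ∃ τ' : Representation F ρ.range V, ∀ g, τ' ⟨ρ g, g, rfl⟩ = τ g := by
  have hτ : ∀ g g', ρ g = ρ g' → τ g = τ g' := by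
    intro g g' h
    have h1 : ρ (g * g'⁻¹) = 1 := by rw [map_mul, map_inv, h, mul_inv_cancel]
    have h2 := triv _ h1
    calc τ g = τ (g * g'⁻¹) * τ g' := by rw [← map_mul, inv_mul_cancel_right]
      _ = τ g' := by rw [h2, one_mul]
  refine ⟨
    { toFun := fun h => τ (Classical.choose h.2)
      map_one' := by
        rw [← map_one τ]
        apply hτ
        rw [map_one]
        exact Classical.choose_spec (1 : ρ.range).2
      map_mul' := by
        intro h h'
        rw [← map_mul]
        apply hτ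
        rw [map_mul, Classical.choose_spec h.2, Classical.choose_spec h'.2]
        exact Classical.choose_spec (h * h').2 }, ?_⟩
  intro g
  apply hτ
  exact Classical.choose_spec (⟨ρ g, g, rfl⟩ : ρ.range).2

variable [Finite F] [TopologicalSpace GK] [IsTopologicalGroup GK]

theorem reg_fin (ρ : GK →* GL (Fin d) F) (hρ : IsOpen {g : GK | ρ g = 1}) :
    IsFiniteModule F GK _ (regRep ρ) :=
  ⟨inferInstance, isOpen_ker _ ρ hρ (regRep_triv ρ)⟩

theorem reg_quot (M : MuNumber F GK) (ρ : GK →* GL (Fin d) F)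
    (hρ : IsOpen {g : GK | ρ g = 1}) (V : Type) [AddCommGroup V] [Module F V]
    [Module.Finite F V] (τ : Representation F GK V) (triv : ∀ g, ρ g = 1 → τ g = 1) :
    M.h V τ ≤ Module.finrank F V * M.h _ (regRep ρ) := by
  classical
  obtain ⟨τ', hτ'⟩ := exists_descend ρ τ triv
  let m := Module.finrank F V
  let v : Module.Basis (Fin m) F V := Module.finBasis F V
  have hfree : ∀ (h x : ρ.range), h • x = x → h = 1 := by
    intro h x hx
    exact mul_eq_right.1 hx
  obtain ⟨B, hB1, hB2⟩ := exists_B hfree τ' v (Module.Basis.singleton (Fin 1) F)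
  let q0 : Quotient (MulAction.orbitRel ρ.range ρ.range) × Fin 1 :=
    (Quotient.mk _ 1, 0)
  have hsum := M.sum (Fin m) (fun _ => (ρ.range → F)) (fun _ => regRep ρ)
    (piRep _ (fun _ => regRep ρ)) (fun _ => reg_fin ρ hρ) (fun g v i => rfl)
  have hfin : IsFiniteModule F GK (∀ _ : Fin m, ρ.range → F) (piRep _ (fun _ => regRep ρ)) := by
    refine ⟨inferInstance, isOpen_ker _ ρ hρ ?_⟩
    intro g hg
    refine LinearMap.ext fun v => funext fun i => ?_
    change regRep ρ g (v i) = v i
    rw [regRep_triv ρ g hg]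
    rfl
  have hq := M.quot _ _ (piRep _ (fun _ : Fin m => regRep ρ)) τ (LinearMap.proj q0 ∘ₗ B) hfin
    (by
      intro w
      obtain ⟨f, hf⟩ := hB1 (fun _ => w)
      exact ⟨f, by rw [LinearMap.comp_apply, hf]; rfl⟩)
    (by
      intro g f
      have h1 := hB2 ⟨ρ g, g, rfl⟩ f
      have h2 := congrFun h1 q0
      rw [hτ'] at h2
      exact h2)
  rw [hsum, Finset.sum_const, Finset.card_univ, Fintype.card_fin, smul_eq_mul] at hq
  exact hq

/-- untwisting: the regular representation absorbs tensor factors -/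
theorem untwist (M : MuNumber F GK) (ρ : GK →* GL (Fin d) F)
    (hρ : IsOpen {g : GK | ρ g = 1}) (k : ℕ) :
    d ^ k * M.h _ (regRep ρ) ≤ M.h _ (twRep ρ k (regRep ρ)) := by
  classical
  have hsum := M.sum (Fin k → Fin d) (fun _ => (ρ.range → F)) (fun _ => regRep ρ)
    (piRep _ (fun _ => regRep ρ)) (fun _ => reg_fin ρ hρ) (fun g v i => rfl)
  let f : ((Fin k → Fin d) → (ρ.range → F)) →ₗ[F] ((Fin k → Fin d) → (ρ.range → F)) :=
    { toFun := fun w i x => ∑ j, tenMat ((x⁻¹ : ρ.range) : GL (Fin d) F).val k i j * w j x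
      map_add' := by
        intro w w'
        funext i x
        simp only [Pi.add_apply, mul_add, Finset.sum_add_distrib]
      map_smul' := by
        intro c w
        funext i x
        simp only [Pi.smul_apply, smul_eq_mul, Finset.mul_sum, RingHom.id_apply]
        exact Finset.sum_congr rfl fun j _ => by ring }
  have hf : ∀ w i x, f w i x =
    ∑ j, tenMat ((x⁻¹ : ρ.range) : GL (Fin d) F).val k i j * w j x := fun w i x => rfl
  have hq := M.quot _ _ (twRep ρ k (regRep ρ))
    (piRep (fun _ : Fin k → Fin d => (ρ.range → F)) (fun _ => regRep ρ)) f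
    (twRep_fin ρ hρ k _ (reg_fin ρ hρ))
    (by
      intro w
      refine ⟨fun j x => ∑ i, tenMat (x : GL (Fin d) F).val k j i * w i x, ?_⟩
      funext i x
      rw [hf]
      have h1 : tenMat ((x⁻¹ : ρ.range) : GL (Fin d) F).val k * tenMat (x : GL (Fin d) F).val k
          = 1 := by
        rw [← tenMat_mul, ← Units.val_mul, ← Subgroup.coe_mul, inv_mul_cancel,
          Subgroup.coe_one, Units.val_one, tenMat_one]
      have h2 : ∀ l, ∑ j, tenMat ((x⁻¹ : ρ.range) : GL (Fin d) F).val k i j *
          tenMat (x : GL (Fin d) F).val k j l = if i = l then 1 else 0 := by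
        intro l
        have := congrFun (congrFun h1 i) l
        rw [Matrix.mul_apply, Matrix.one_apply] at this
        exact this
      simp only [Finset.mul_sum, ← mul_assoc]
      rw [Finset.sum_comm]
      simp only [← Finset.sum_mul, h2]
      simp)
    (by
      intro g w
      funext i x
      change f (twRep ρ k (regRep ρ) g w) i x = regRep ρ g (f w i) x
      rw [regRep_apply, hf, hf]
      have h1 : ∀ j, twRep ρ k (regRep ρ) g w j x =
          ∑ l, tenMat (ρ g : Matrix (Fin d) (Fin d) F) k j l *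
            w l ((⟨ρ g, g, rfl⟩ : ρ.range)⁻¹ * x) := by
        intro j
        rw [twRep_apply, Finset.sum_apply]
        rfl
      have h2 : tenMat ((((⟨ρ g, g, rfl⟩ : ρ.range)⁻¹ * x)⁻¹ : ρ.range) : GL (Fin d) F).val k =
          tenMat ((x⁻¹ : ρ.range) : GL (Fin d) F).val k *
            tenMat (ρ g : Matrix (Fin d) (Fin d) F) k := by
        rw [← tenMat_mul, mul_inv_rev, inv_inv, Subgroup.coe_mul, Units.val_mul]
      rw [h2]
      simp only [h1, Matrix.mul_apply, Finset.mul_sum, Finset.sum_mul, ← mul_assoc]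
      rw [Finset.sum_comm])
  rw [hsum, Finset.sum_const, Finset.card_univ, Fintype.card_fun, Fintype.card_fin,
    Fintype.card_fin, smul_eq_mul] at hq
  exact hq

end Reg

section Main

variable {F : Type} [Field F] [Finite F] {GK : Type} [Group GK] {d : ℕ}

theorem range_card_pos (ρ : GK →* GL (Fin d) F) : 0 < Nat.card ρ.range := Nat.card_pos

omit [Finite F] in
theorem range_card_zero (ρ : GK →* GL (Fin 0) F) : Nat.card ρ.range = 1 := by
  rw [Nat.card_eq_one_iff_unique]
  refine ⟨⟨fun a b => Subtype.ext (Units.ext (Subsingleton.elim _ _))⟩, ⟨1⟩⟩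

/-- free points exist in large proportion once the field is large -/
theorem half_free (Q G X d : ℕ) (hG : 0 < G) (hd : d = 0 → G = 1) (hQ : 2 * G ≤ Q)
    (h : Q ^ d ≤ X + (G - 1) * Q ^ (d - 1)) : Q ^ d ≤ 2 * X := by
  rcases Nat.eq_zero_or_pos d with hd0 | hd0
  · have := hd hd0
    subst hd0
    subst this
    simp at h ⊢
    omega
  · obtain ⟨e, rfl⟩ : ∃ e, d = e + 1 := ⟨d - 1, by omega⟩
    rw [Nat.add_sub_cancel] at h
    have h1 : 2 * ((G - 1) * Q ^ e) ≤ Q ^ (e + 1) := by
      calc 2 * ((G - 1) * Q ^ e) = (2 * (G - 1)) * Q ^ e := by ring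
        _ ≤ Q * Q ^ e := Nat.mul_le_mul_right _ (by omega)
        _ = Q ^ (e + 1) := by ring
    omega

/-- the extension of degree `k` of the finite field `F` -/
theorem exists_ext (k : ℕ) (hk : 0 < k) : ∃ (E : Type) (_ : Field E) (_ : Algebra F E)
    (_ : Module.Finite F E) (_ : Finite E), Nat.card E = Nat.card F ^ k := by
  obtain ⟨p, hp⟩ := CharP.exists F
  have hprime : Fact p.Prime := ⟨CharP.char_is_prime F p⟩
  have : NeZero k := ⟨hk.ne'⟩
  exact ⟨FiniteField.Extension F p k, inferInstance, inferInstance, inferInstance,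
    inferInstance, FiniteField.natCard_extension F p k⟩

/-- a free orbit of points over some extension -/
theorem exists_orbit (ρ : GK →* GL (Fin d) F) :
    ∃ (E : Type) (_ : Field E) (_ : Algebra F E) (_ : Module.Finite F E)
      (X : Finset (Fin d → E)),
      (∀ g, ∀ x ∈ X, tr (ρ g : Matrix (Fin d) (Fin d) F) x ∈ X) ∧
      (∀ g, ∀ x ∈ X, tr (ρ g : Matrix (Fin d) (Fin d) F) x = x → ρ g = 1) ∧
      X.card = Nat.card ρ.range := by
  classical
  have hGpos := range_card_pos ρ
  obtain ⟨E, i1, i2, i3, i4, hE⟩ := exists_ext (F := F) (2 * Nat.card ρ.range) (by omega)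
  have : Fintype E := Fintype.ofFinite E
  have : Fintype ρ.range := Fintype.ofFinite _
  obtain ⟨X, h1, h2, h3⟩ := card_freePts (E := E) ρ
  rw [← Nat.card_eq_fintype_card (α := E)] at h3
  have hbig : 2 * Nat.card ρ.range ≤ Nat.card E := by
    rw [hE]
    have : 1 < Nat.card F := Finite.one_lt_card
    exact (Nat.lt_pow_self this).le
  have h4 := half_free _ _ _ d hGpos (fun h => by subst h; exact range_card_zero ρ) hbig h3
  have hXpos : 0 < X.card := by
    have : 0 < Nat.card E ^ d := Nat.pow_pos (by omega)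
    omega
  obtain ⟨x0, hx0⟩ := Finset.card_pos.1 hXpos
  have hmem : ∀ h : ρ.range, tr (h : GL (Fin d) F).val x0 ∈ X := by
    rintro ⟨h, g, rfl⟩
    exact h1 g x0 hx0
  refine ⟨E, i1, i2, i3, Finset.univ.image (fun h : ρ.range => tr (h : GL (Fin d) F).val x0),
    ?_, ?_, ?_⟩
  · intro g x hx
    rw [Finset.mem_image] at hx ⊢
    obtain ⟨h, _, rfl⟩ := hx
    refine ⟨h * ⟨ρ g, g, rfl⟩, Finset.mem_univ _, ?_⟩
    rw [Subgroup.coe_mul, Units.val_mul, tr_mul]
  · intro g x hx
    rw [Finset.mem_image] at hx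
    obtain ⟨h, _, rfl⟩ := hx
    exact h2 g _ (hmem h)
  · rw [Finset.card_image_of_injective, Finset.card_univ, Nat.card_eq_fintype_card]
    intro h h' hh
    have h5 : tr ((h * h'⁻¹ : ρ.range) : GL (Fin d) F).val x0 = x0 := by
      rw [Subgroup.coe_mul, Units.val_mul, tr_mul]
      have hh' : tr (h : GL (Fin d) F).val x0 = tr (h' : GL (Fin d) F).val x0 := hh
      rw [hh', ← tr_mul, ← Units.val_mul, ← Subgroup.coe_mul, mul_inv_cancel,
        Subgroup.coe_one, Units.val_one, tr_one]
    obtain ⟨g, hg⟩ := (h * h'⁻¹).2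
    have h6 := h2 g x0 hx0 (by rw [hg]; exact h5)
    rw [hg] at h6
    have h7 : h * h'⁻¹ = 1 := Subtype.ext h6
    exact mul_inv_eq_one.1 h7

variable [TopologicalSpace GK] [IsTopologicalGroup GK]

/-- few symmetric powers suffice -/
theorem few (M : MuNumber F GK) (ρ : GK →* GL (Fin d) F)
    (hρ : IsOpen {g : GK | ρ g = 1}) (V : Type) [AddCommGroup V] [Module F V]
    [Module.Finite F V] (τ : Representation F GK V) (triv : ∀ g, ρ g = 1 → τ g = 1) :
    M.h V τ ≤ Module.finrank F V *
      ∑ n ∈ Finset.range (Nat.card ρ.range), M.h _ (symPow0 ρ n) := by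
  obtain ⟨E, i1, i2, i3, X, h1, h2, h3⟩ := exists_orbit ρ
  have hG := range_card_pos ρ
  have h4 := key M ρ hρ X (X.card - 1) h1 h2 (fun x hx => lagrange X x hx) V τ triv
  rw [h3, Nat.sub_add_cancel hG] at h4
  exact Nat.le_of_mul_le_mul_left h4 hG

/-- the explicit lower bound, part 1 -/
theorem bound_aux (M : MuNumber F GK) (ρ : GK →* GL (Fin d) F)
    (hρ : IsOpen {g : GK | ρ g = 1}) (k : ℕ) (hk : 0 < k) (V : Type) [AddCommGroup V]
    [Module F V] [Module.Finite F V] (τ : Representation F GK V)
    (triv : ∀ g, ρ g = 1 → τ g = 1) :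
    ∃ X : ℕ, (Nat.card F ^ k) ^ d ≤ X + (Nat.card ρ.range - 1) * (Nat.card F ^ k) ^ (d - 1) ∧
      X * M.h V τ ≤ Nat.card ρ.range * (Module.finrank F V *
        ∑ n ∈ Finset.range (d * (Nat.card F ^ k - 1) + 1), M.h _ (symPow0 ρ n)) := by
  obtain ⟨E, i1, i2, i3, i4, hE⟩ := exists_ext (F := F) k hk
  have : Fintype E := Fintype.ofFinite E
  obtain ⟨X, h1, h2, h3⟩ := card_freePts (E := E) ρ
  rw [← Nat.card_eq_fintype_card (α := E), hE] at h3
  refine ⟨X.card, h3, ?_⟩
  apply key M ρ hρ X _ h1 h2 _ V τ triv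
  intro x _
  refine ⟨indicator x, ?_, eval_indicator_apply_eq_one x, ?_⟩
  · have := indicator_deg x
    rw [← Nat.card_eq_fintype_card (α := E), hE] at this
    exact this
  · intro y _ hy
    exact eval_indicator_apply_eq_zero y x hy

/-- growth of tensor powers -/
theorem ten_growth (M : MuNumber F GK) (ρ : GK →* GL (Fin d) F)
    (hρ : IsOpen {g : GK | ρ g = 1}) (k : ℕ) :
    d ^ k * M.h _ (regRep ρ) ≤ Nat.card ρ.range *
      ∑ n ∈ Finset.range (Nat.card ρ.range), M.h _ (tenPow ρ (n + k)) := by
  have h1 := few (twist M ρ hρ k) ρ hρ _ (regRep ρ) (regRep_triv ρ)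
  have h2 := untwist M ρ hρ k
  refine h2.trans (h1.trans ?_)
  have h3 : Module.finrank F (ρ.range → F) = Nat.card ρ.range := by
    have : Fintype ρ.range := Fintype.ofFinite _
    rw [Module.finrank_fintype_fun_eq_card, Nat.card_eq_fintype_card]
  rw [h3]
  exact Nat.mul_le_mul_left _ (Finset.sum_le_sum fun n _ => tw_le_ten M ρ hρ n k)

end Main

section Final

variable {F : Type} [Field F] [Finite F] {GK : Type} [Group GK] {d : ℕ}
variable [TopologicalSpace GK] [IsTopologicalGroup GK]

theorem growth (ρ : GK →* GL (Fin d) F)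
    (hρ : IsOpen {g : GK | ρ g = 1}) (V : Type) [AddCommGroup V] [Module F V]
    [Module.Finite F V] (τ : Representation F GK V) (triv : ∀ g, ρ g = 1 → τ g = 1) :
    ∃ c : ℝ, 0 < c ∧ ∃ N₁ : ℕ, ∀ (M : MuNumber F GK), ∀ N ≥ N₁,
      c * (M.h V τ : ℝ) * (N : ℝ) ^ d ≤
      ((∑ n ∈ Finset.range (N + 1), M.h _ (symPow0 ρ n) : ℕ) : ℝ) := by
  have hG := range_card_pos ρ
  set G := Nat.card ρ.range with hGdef
  set v := Module.finrank F V
  set q := Nat.card F
  have hq : 1 < q := Finite.one_lt_card
  rcases Nat.eq_zero_or_pos d with hd0 | hd0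
  · subst hd0
    have hG1 : G = 1 := range_card_zero ρ
    refine ⟨1 / ((v : ℝ) + 1), by positivity, 0, fun M N _ => ?_⟩
    have h1 := few M ρ hρ V τ triv
    rw [← hGdef, hG1] at h1
    have h2 : ∑ n ∈ Finset.range 1, M.h _ (symPow0 ρ n) ≤
        ∑ n ∈ Finset.range (N + 1), M.h _ (symPow0 ρ n) :=
      Finset.sum_le_sum_of_subset (Finset.range_mono (by omega))
    have h3 : (M.h V τ : ℝ) ≤
        (v : ℝ) * ((∑ n ∈ Finset.range (N + 1), M.h _ (symPow0 ρ n) : ℕ) : ℝ) := by
      exact_mod_cast h1.trans (Nat.mul_le_mul_left _ h2)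
    rw [pow_zero, mul_one, div_mul_eq_mul_div, one_mul, div_le_iff₀ (by positivity)]
    nlinarith [Nat.cast_nonneg (α := ℝ) (∑ n ∈ Finset.range (N + 1), M.h _ (symPow0 ρ n))]
  · refine ⟨1 / (2 * G * ((v : ℝ) + 1) * ((d * q : ℕ) : ℝ) ^ d), ?_,
      d * (2 * G * q), fun M N hN => ?_⟩
    · have : 0 < d * q := Nat.mul_pos hd0 (by omega)
      have : (0 : ℝ) < ((d * q : ℕ) : ℝ) := by exact_mod_cast this
      have : (0 : ℝ) < (G : ℝ) := by exact_mod_cast hG
      positivity
    · set k := Nat.log q (N / d + 1) with hk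
      have hk1 : q ^ k ≤ N / d + 1 := Nat.pow_log_le_self q (Nat.succ_ne_zero _)
      have hk2 : N / d + 1 < q ^ (k + 1) := Nat.lt_pow_succ_log_self hq _
      have hNd : 2 * G * q ≤ N / d := by
        rw [Nat.le_div_iff_mul_le hd0]
        calc 2 * G * q * d = d * (2 * G * q) := by ring
          _ ≤ N := hN
      have hqk : 2 * G ≤ q ^ k := by
        have h1 : 2 * G * q < q ^ k * q := by
          calc 2 * G * q ≤ N / d := hNd
            _ < N / d + 1 := by omega
            _ < q ^ (k + 1) := hk2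
            _ = q ^ k * q := by ring
        exact (Nat.lt_of_mul_lt_mul_right h1).le
      have hkpos : 0 < k := by
        by_contra hcon
        have : k = 0 := by omega
        rw [this, pow_zero] at hqk
        omega
      obtain ⟨X, hX1, hX2⟩ := bound_aux M ρ hρ k hkpos V τ triv
      have hX3 := half_free (q ^ k) G X d hG (fun h => absurd h (by omega)) hqk hX1
      have hle : d * (q ^ k - 1) ≤ N := by
        calc d * (q ^ k - 1) ≤ d * (N / d) := Nat.mul_le_mul_left _ (by omega)
          _ ≤ N := Nat.mul_div_le N d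
      have hsum : ∑ n ∈ Finset.range (d * (q ^ k - 1) + 1), M.h _ (symPow0 ρ n) ≤
          ∑ n ∈ Finset.range (N + 1), M.h _ (symPow0 ρ n) :=
        Finset.sum_le_sum_of_subset (Finset.range_mono (by omega))
      set S := ∑ n ∈ Finset.range (N + 1), M.h _ (symPow0 ρ n) with hS
      have hXS : X * M.h V τ ≤ G * (v * S) :=
        hX2.trans (Nat.mul_le_mul_left _ (Nat.mul_le_mul_left _ hsum))
      have hN2 : N ≤ d * q * q ^ k := by
        have h1 : N < d * (N / d + 1) := Nat.lt_mul_div_succ N hd0
        calc N ≤ d * (N / d + 1) := h1.le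
          _ ≤ d * q ^ (k + 1) := Nat.mul_le_mul_left _ hk2.le
          _ = d * q * q ^ k := by ring
      have hN3 : N ^ d ≤ (d * q) ^ d * (2 * X) := by
        calc N ^ d ≤ (d * q * q ^ k) ^ d := Nat.pow_le_pow_left hN2 d
          _ = (d * q) ^ d * (q ^ k) ^ d := by rw [mul_pow]
          _ ≤ (d * q) ^ d * (2 * X) := Nat.mul_le_mul_left _ hX3
      have hfin : M.h V τ * N ^ d ≤ 2 * G * (v + 1) * (d * q) ^ d * S := by
        calc M.h V τ * N ^ d ≤ M.h V τ * ((d * q) ^ d * (2 * X)) := Nat.mul_le_mul_left _ hN3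
          _ = 2 * (d * q) ^ d * (X * M.h V τ) := by ring
          _ ≤ 2 * (d * q) ^ d * (G * (v * S)) := Nat.mul_le_mul_left _ hXS
          _ ≤ 2 * (d * q) ^ d * (G * ((v + 1) * S)) :=
            Nat.mul_le_mul_left _ (Nat.mul_le_mul_left _ (Nat.mul_le_mul_right _ (by omega)))
          _ = 2 * G * (v + 1) * (d * q) ^ d * S := by ring
      have hfin' : (M.h V τ : ℝ) * (N : ℝ) ^ d ≤
          2 * G * ((v : ℝ) + 1) * ((d * q : ℕ) : ℝ) ^ d * (S : ℝ) := by
        exact_mod_cast hfin
      have hpos : (0 : ℝ) < 2 * G * ((v : ℝ) + 1) * ((d * q : ℕ) : ℝ) ^ d := by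
        have : 0 < d * q := Nat.mul_pos hd0 (by omega)
        have : (0 : ℝ) < ((d * q : ℕ) : ℝ) := by exact_mod_cast this
        have : (0 : ℝ) < (G : ℝ) := by exact_mod_cast hG
        positivity
      rw [mul_assoc, div_mul_eq_mul_div, one_mul, div_le_iff₀ hpos]
      linarith

theorem sym_to_all (M : MuNumber F GK) (ρ : GK →* GL (Fin d) F)
    (hρ : IsOpen {g : GK | ρ g = 1})
    (h : ∀ ε : ℝ, 0 < ε → ∀ N₀ : ℕ, ∃ N ≥ N₀,
      ((∑ n ∈ Finset.range (N + 1), M.h _ (symPow0 ρ n) : ℕ) : ℝ) ≤ ε * (N : ℝ) ^ d)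
    (V : Type) [AddCommGroup V] [Module F V] (τ : Representation F GK V)
    (hV : Module.Finite F V) (triv : ∀ g, ρ g = 1 → τ g = 1) : M.h V τ = 0 := by
  by_contra hne
  obtain ⟨c, hc, N₁, hN₁'⟩ := growth ρ hρ V τ triv
  have hN₁ := hN₁' M
  obtain ⟨N, hN, hS⟩ := h (c / 2) (by positivity) (max N₁ 1)
  have h1 := hN₁ N (le_trans (le_max_left _ _) hN)
  have hN1 : 1 ≤ N := le_trans (le_max_right _ _) hN
  have h2 : (1 : ℝ) ≤ (M.h V τ : ℝ) := by
    exact_mod_cast Nat.one_le_iff_ne_zero.2 hne
  have h3 : (0 : ℝ) < (N : ℝ) ^ d := by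
    have : (0 : ℝ) < (N : ℝ) := by exact_mod_cast hN1
    positivity
  have h4 : c * 1 * (N : ℝ) ^ d ≤ c * (M.h V τ : ℝ) * (N : ℝ) ^ d := by
    apply mul_le_mul_of_nonneg_right _ h3.le
    exact mul_le_mul_of_nonneg_left h2 hc.le
  have h5 : 0 < c * (N : ℝ) ^ d := mul_pos hc h3
  nlinarith

theorem ten_to_all (M : MuNumber F GK) (ρ : GK →* GL (Fin d) F)
    (hρ : IsOpen {g : GK | ρ g = 1})
    (h : ∀ ε : ℝ, 0 < ε → ∀ N₀ : ℕ, ∃ N ≥ N₀,
      ((∑ n ∈ Finset.range (N + 1), M.h _ (tenPow ρ n) : ℕ) : ℝ) ≤ ε * (d : ℝ) ^ N)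
    (V : Type) [AddCommGroup V] [Module F V] (τ : Representation F GK V)
    (hV : Module.Finite F V) (triv : ∀ g, ρ g = 1 → τ g = 1) : M.h V τ = 0 := by
  by_contra hne
  have hreg := reg_quot M ρ hρ V τ triv
  have hR : 1 ≤ M.h _ (regRep ρ) := by
    rw [Nat.one_le_iff_ne_zero]
    intro h0
    rw [h0, mul_zero] at hreg
    omega
  have hG := range_card_pos ρ
  rcases Nat.eq_zero_or_pos d with hd0 | hd0
  · subst hd0
    obtain ⟨N, hN, hS⟩ := h 1 one_pos 1
    have hG1 : Nat.card ρ.range = 1 := range_card_zero ρ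
    have h1 := ten_growth M ρ hρ 0
    rw [hG1, pow_zero, one_mul, one_mul, Finset.sum_range_one] at h1
    have h2 : ((0 : ℕ) : ℝ) ^ N = 0 := by
      rw [Nat.cast_zero, zero_pow (by omega)]
    rw [h2, mul_zero] at hS
    have h3 : ∑ n ∈ Finset.range (N + 1), M.h _ (tenPow ρ n) = 0 := by
      have : ((∑ n ∈ Finset.range (N + 1), M.h _ (tenPow ρ n) : ℕ) : ℝ) = 0 :=
        le_antisymm hS (Nat.cast_nonneg _)
      exact_mod_cast this
    rw [Finset.sum_eq_zero_iff] at h3
    have h4 := h3 0 (Finset.mem_range.2 (by omega))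
    change M.h _ (regRep ρ) ≤ M.h _ (tenPow ρ 0) at h1
    omega
  · set G := Nat.card ρ.range with hGdef
    have hGr : (0 : ℝ) < (G : ℝ) := by exact_mod_cast hG
    have hdr : (0 : ℝ) < (d : ℝ) := by exact_mod_cast hd0
    obtain ⟨N, hN, hS⟩ := h (1 / (2 * G * (d : ℝ) ^ (G - 1))) (by positivity) (G - 1)
    obtain ⟨k, rfl⟩ : ∃ k, N = k + (G - 1) := ⟨N - (G - 1), by omega⟩
    have h1 := ten_growth M ρ hρ k
    rw [← hGdef] at h1
    have h2 : ∑ n ∈ Finset.range G, M.h _ (tenPow ρ (n + k)) ≤
        ∑ n ∈ Finset.range (k + (G - 1) + 1), M.h _ (tenPow ρ n) := by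
      have e : k + (G - 1) + 1 = k + G := by omega
      rw [e, Finset.sum_range_add]
      refine le_trans (le_of_eq ?_) (Nat.le_add_left _ _)
      refine Finset.sum_congr rfl fun n _ => ?_
      rw [Nat.add_comm]
    have h3 : d ^ k ≤ G * ∑ n ∈ Finset.range (k + (G - 1) + 1), M.h _ (tenPow ρ n) := by
      calc d ^ k = d ^ k * 1 := (mul_one _).symm
        _ ≤ d ^ k * M.h _ (regRep ρ) := Nat.mul_le_mul_left _ hR
        _ ≤ _ := h1.trans (Nat.mul_le_mul_left _ h2)
    have h3' : (d : ℝ) ^ k ≤
        G * ((∑ n ∈ Finset.range (k + (G - 1) + 1), M.h _ (tenPow ρ n) : ℕ) : ℝ) := by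
      exact_mod_cast h3
    have h4 : (G : ℝ) * ((∑ n ∈ Finset.range (k + (G - 1) + 1), M.h _ (tenPow ρ n) : ℕ) : ℝ) ≤
        G * (1 / (2 * G * (d : ℝ) ^ (G - 1)) * (d : ℝ) ^ (k + (G - 1))) :=
      mul_le_mul_of_nonneg_left hS hGr.le
    have h5 : (G : ℝ) * (1 / (2 * G * (d : ℝ) ^ (G - 1)) * (d : ℝ) ^ (k + (G - 1))) =
        (d : ℝ) ^ k / 2 := by
      rw [pow_add]
      field_simp
    have h6 : (0 : ℝ) < (d : ℝ) ^ k := by positivity
    linarith

end Final


theorem h_symPow {F : Type} [Field F] {GK : Type} [Group GK] [TopologicalSpace GK]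
    (M : MuNumber F GK) {d : ℕ} (ρ : GK →* GL (Fin d) F) (n : ℕ) :
    M.h (SymSpace F d n) (symPow ρ n) =
      M.h (homogeneousSubmodule (Fin d) F n) (symPow0 ρ n) := rfl

theorem symSum_eq {F : Type} [Field F] {GK : Type} [Group GK] [TopologicalSpace GK]
    (M : MuNumber F GK) {d : ℕ} (ρ : GK →* GL (Fin d) F) (N : ℕ) :
    symSum M ρ N = ∑ n ∈ Finset.range (N + 1),
      M.h (homogeneousSubmodule (Fin d) F n) (symPow0 ρ n) := rfl

theorem main (F : Type) [Field F] [Finite F] (GK : Type) [Group GK] [TopologicalSpace GK]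
    [IsTopologicalGroup GK] (M : MuNumber F GK) :
    (∀ (d : ℕ) (ρ : GK →* GL (Fin d) F), IsOpen {g : GK | ρ g = 1} →
      List.TFAE [
        Vanishes M ρ,
        ∀ n < Nat.card ρ.range, M.h (SymSpace F d n) (symPow ρ n) = 0,
        SymSmall M ρ,
        ∀ n < Nat.card ρ.range, M.h ((Fin n → Fin d) → F) (tenPow ρ n) = 0,
        TenSmall M ρ] ∧
      ∀ (k : ℕ), 0 < k → ∀ (V : Type) [AddCommGroup V] [Module F V]
        (τ : Representation F GK V), Module.Finite F V → (∀ g, ρ g = 1 → τ g = 1) →
        (Nat.card F ^ k) ^ d * M.h V τ ≤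
          Nat.card ρ.range * Module.finrank F V * symSum M ρ (d * (Nat.card F ^ k - 1)) +
            (Nat.card ρ.range - 1) * (Nat.card F ^ k) ^ (d - 1) * M.h V τ) ∧
    ((∀ (V : Type) [AddCommGroup V] [Module F V] (τ : Representation F GK V),
        IsFiniteModule F GK V τ → M.h V τ = 0) ↔
      ∀ (d : ℕ) (ρ : GK →* GL (Fin d) F), IsOpen {g : GK | ρ g = 1} → SymSmall M ρ) := by
  refine ⟨fun d ρ hρ => ⟨?_, ?_⟩, ?_, ?_⟩
  · tfae_have 1 → 2 := fun h n _ => h _ (symPow0 ρ n) (finite_homog n) (symPow0_triv ρ n)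
    tfae_have 2 → 1 := by
      intro h V _ _ τ hV triv
      have h1 := few M ρ hρ V τ triv
      simp only [h_symPow] at h
      rw [Finset.sum_eq_zero (fun n hn => h n (Finset.mem_range.1 hn)), mul_zero] at h1
      omega
    tfae_have 1 → 3 := by
      intro h ε hε N₀
      refine ⟨N₀, le_refl _, ?_⟩
      rw [symSum_eq, Finset.sum_eq_zero
        (fun n _ => h _ (symPow0 ρ n) (finite_homog n) (symPow0_triv ρ n)), Nat.cast_zero]
      positivity
    tfae_have 3 → 1 := by
      intro h V _ _ τ hV triv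
      exact sym_to_all M ρ hρ h V τ hV triv
    tfae_have 1 → 4 := fun h n _ => h _ (tenPow ρ n) inferInstance (tenPow_triv ρ n)
    tfae_have 4 → 2 := by
      intro h n hn
      have h1 := sym_le_ten M ρ hρ n
      rw [h n hn] at h1
      rw [h_symPow]
      omega
    tfae_have 1 → 5 := by
      intro h ε hε N₀
      refine ⟨N₀, le_refl _, ?_⟩
      rw [tenSum, Finset.sum_eq_zero
        (fun n _ => h _ (tenPow ρ n) inferInstance (tenPow_triv ρ n)), Nat.cast_zero]
      positivity
    tfae_have 5 → 1 := by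
      intro h V _ _ τ hV triv
      exact ten_to_all M ρ hρ h V τ hV triv
    tfae_finish
  · intro k hk V _ _ τ hV triv
    obtain ⟨X, hX1, hX2⟩ := bound_aux M ρ hρ k hk V τ triv
    rw [← symSum_eq] at hX2
    calc (Nat.card F ^ k) ^ d * M.h V τ
        ≤ (X + (Nat.card ρ.range - 1) * (Nat.card F ^ k) ^ (d - 1)) * M.h V τ :=
          Nat.mul_le_mul_right _ hX1
      _ = X * M.h V τ + (Nat.card ρ.range - 1) * (Nat.card F ^ k) ^ (d - 1) * M.h V τ :=
          add_mul _ _ _
      _ ≤ _ := by
          rw [mul_assoc (Nat.card ρ.range)]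
          exact Nat.add_le_add_right hX2 _
  · intro h d ρ hρ ε hε N₀
    refine ⟨N₀, le_refl _, ?_⟩
    rw [symSum_eq, Finset.sum_eq_zero (fun n _ => h _ (symPow0 ρ n)
      ⟨finite_homog n, isOpen_ker _ ρ hρ (symPow0_triv ρ n)⟩), Nat.cast_zero]
    positivity
  · intro h V _ _ τ hτ
    have hV := hτ.1
    let b := Module.finBasis F V
    let ρ : GK →* GL (Fin (Module.finrank F V)) F :=
      ((LinearMap.toMatrixAlgEquiv b).toMonoidHom.comp τ).toHomUnits
    have hρτ : ∀ g, ρ g = 1 ↔ τ g = 1 := by
      intro g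
      constructor
      · intro hg
        have h1 := congrArg Units.val hg
        have h2 : LinearMap.toMatrixAlgEquiv b (τ g) = 1 := h1
        exact (LinearMap.toMatrixAlgEquiv b).injective (by rw [h2, map_one])
      · intro hg
        apply Units.ext
        change LinearMap.toMatrixAlgEquiv b (τ g) = 1
        rw [hg, map_one]
    have hρ : IsOpen {g : GK | ρ g = 1} := by
      have : {g : GK | ρ g = 1} = {g : GK | τ g = 1} := Set.ext fun g => hρτ g
      rw [this]
      exact hτ.2
    exact sym_to_all M ρ hρ (h _ ρ hρ) V τ hV (fun g hg => (hρτ g).1 hg)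


end Pool.H94.MuSym
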